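import Pool.Agent.Run7.h271.ML.Inv

/-!
# Pairs with ideals and their étale charts: the bundled definitions
-/

set_option autoImplicit false
set_option linter.unusedSectionVars false

namespace Pool.Agent.Run7.h271.ML

open Pool.Agent.H436R3.Fol hiding ex
open Pool.Agent.H436R3.KT Pool.Agent.W497.Mld Pool.Agent.Helper58K9.ET
  Pool.Agent.TH165.ACC

/-- A pair `(X ∋ x, B)` with a local equation `e` of `K_X + B` at the closed point `x`. -/
structure Germ where
  K : Type
  [fK : Field K]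
  [aK : Algebra ℂ K]
  X : AffVar K
  B : EffDiv X
  x : Pt X
  e : LocEq B x

attribute [instance] Germ.fK Germ.aK

/-- An étale chart `H = (Y ∋ P, B')` of the pair `G = (X ∋ x, B)`: a variety `U = Spec S` with étale
morphisms `U → X` and `U → Y` and a closed point `y` of `U` over `x` and `P`, such that the pull-backs
of `K_X + B` and `K_Y + B'` to `U` agree at `y`: they have the same difference with the canonical
divisor of `U`, at all prime divisors `w` over `U ∋ y`. -/
structure EtChart (G H : Germ) where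
  L : Type
  [fL : Field L]
  [aL : Algebra ℂ L]
  [aG : Algebra G.K L]
  [sG : IsScalarTower ℂ G.K L]
  [aH : Algebra H.K L]
  [sH : IsScalarTower ℂ H.K L]
  S : Subalgebra ℂ L
  h : Etale G.X S
  h' : Etale H.X S
  T : Foliation L G.X.d
  T' : Foliation L H.X.d
  y : S →ₐ[ℂ] ℂ
  hT : Ext G.X T
  hT' : Ext H.X T'
  hx : h.im y = G.x
  hP : h'.im y = H.x
  agree : ∀ w, OverPt S y w → ∀ n n' : ℤ, IsCanOrd T w n → IsCanOrd T' w n' →
      (n : ℝ) - ordE G.e w = (n' : ℝ) - ordE H.e w

attribute [instance] EtChart.fL EtChart.aL EtChart.aG EtChart.sG EtChart.aH EtChart.sH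

/-- the unbundled chart -/
def EtChart.un {G H : Germ} (C : EtChart G H) : Chart G.e H.e where
  L := C.L
  S := C.S
  h := C.h
  h' := C.h'
  T := C.T
  T' := C.T'
  y := C.y
  hT := C.hT
  hT' := C.hT'
  hx := C.hx
  hP := C.hP
  agree := C.agree

/-- An `ℝ`-ideal `∏ j, (I j) ^ (c j)` on `X`, with `r` ideals `I j` of functions on `X` and with
exponents `c j`. -/
structure RIdeal (G : Germ) (r : ℕ) where
  I : Fin r → Ideal G.X.R
  c : Fin r → ℝ

/-- `t` is the log discrepancy of `v` for the pair `(X, B)` with the `ℝ`-ideal `a`: the log discrepancy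
of `v` for `(X, B)`, minus `∑ j, c j * ord_v (I j)`. -/
def RIdeal.IsLogDisc {G : Germ} {r : ℕ} (a : RIdeal G r) (v : DVal G.K) (t : ℝ) : Prop :=
  ∃ (t0 : ℝ) (k : Fin r → ℤ), Pool.Agent.W497.Mld.IsLogDisc G.e v t0 ∧
    (∀ j, IsOrdI (a.I j) v (k j)) ∧ t = t0 - ∑ j, a.c j * (k j : ℝ)

/-- `m` is the minimal log discrepancy at `x` of the pair `(X, B)` with the `ℝ`-ideal `a`. -/
def RIdeal.IsMld {G : Germ} {r : ℕ} (a : RIdeal G r) (m : ℝ) : Prop :=
  IsLeast {t | ∃ v, IsOverGerm G.x v ∧ a.IsLogDisc v t} m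

/-- The ideals `I j` are nonzero, and the exponents are positive elements of `Γ`. -/
def RIdeal.In {G : Germ} {r : ℕ} (a : RIdeal G r) (Γ : Set ℝ) : Prop :=
  ∀ j, a.I j ≠ ⊥ ∧ a.c j ∈ Γ ∧ 0 < a.c j

/-- The submodule of the field `L` which is generated by `Z` over the ring `S`. -/
def gen {L : Type} [Field L] [Algebra ℂ L] (S : Subalgebra ℂ L) (Z : Set L) : Set L :=
  (Submodule.span S Z : Submodule S L)

/-- The image of an ideal of functions on `X`, in the field `L`. -/
def img {K L : Type} [Field K] [Algebra ℂ K] [Field L] [Algebra K L] {X : AffVar K}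
    (I : Ideal X.R) : Set L :=
  (fun f : X.R => algebraMap K L (f : K)) '' I

/-- `v` is the restriction of `w` to the subfield `K`. -/
def Restr {K L : Type} [Field K] [Algebra ℂ K] [Field L] [Algebra ℂ L] [Algebra K L]
    (w : DVal L) (v : DVal K) : Prop :=
  ∀ f : K, f ≠ 0 → w.ord (algebraMap K L f) = v.ord f

/-- The `ℝ`-ideals `a` on `X` and `b` on `Y` have the same exponents, and their ideals generate the
same ideals on `U`. -/
def Same {G H : Germ} (C : EtChart G H) {r : ℕ} (a : RIdeal G r) (b : RIdeal H r) : Prop :=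
  a.c = b.c ∧ ∀ j, gen C.S (img (a.I j)) = gen C.S (img (b.I j))

/-- A pair `(Y ∋ P, B)` on a toric germ `Y` of dimension `n`, with the fixed point `P`. -/
structure TGerm (n : ℕ) where
  g : ToricGerm n (FractionRing (MvPolynomial (Fin n) ℂ))
  B : EffDiv g.X
  e : LocEq B g.P

/-- the pair, as a germ -/
noncomputable def TGerm.germ {n : ℕ} (t : TGerm n) : Germ where
  K := FractionRing (MvPolynomial (Fin n) ℂ)
  X := t.g.X
  B := t.B
  x := t.g.P
  e := t.e

/-- a valuation of the field of rational functions in `n` variables, as one of the field of the germ -/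
def TGerm.val {n : ℕ} (t : TGerm n) (v : DVal (FractionRing (MvPolynomial (Fin n) ℂ))) :
    DVal t.germ.K := v

/-- The divisor `v` over `X ∋ x` is monomial in the étale toric coordinates given by the chart: it is
the restriction of a divisor `w` over `U ∋ y` whose restriction to the toric germ is monomial (toric). -/
def Mono {n : ℕ} {G : Germ} {t : TGerm n} (C : EtChart G t.germ) (v : DVal G.K) : Prop :=
  ∃ (w : DVal C.L) (v' : DVal (FractionRing (MvPolynomial (Fin n) ℂ))), OverPt C.S C.y w ∧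
    Restr w v ∧ Restr w (t.val v') ∧ IsMonomial n v'

/-- The ideals of the `ℝ`-ideal `a` are monomial in the étale toric coordinates: on `U` they generate
the same ideals as sets of monomials on the toric germ. -/
def MonoR {n : ℕ} {G : Germ} {t : TGerm n} (C : EtChart G t.germ) {r : ℕ} (a : RIdeal G r) : Prop :=
  ∀ j, ∃ D ⊆ Cn t.g.E, D.Nonempty ∧ gen C.S (img (a.I j)) =
    gen C.S ((fun m => algebraMap t.germ.K C.L
      (ym (FractionRing (MvPolynomial (Fin n) ℂ)) m)) '' D)

/-- `m` is the log discrepancy of a divisor over `X ∋ x` which is monomial in the étale toric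
coordinates. -/
def Comp {n : ℕ} {G : Germ} {t : TGerm n} (C : EtChart G t.germ) {r : ℕ} (a : RIdeal G r)
    (m : ℝ) : Prop :=
  ∃ v, IsOverGerm G.x v ∧ Mono C v ∧ a.IsLogDisc v m

section proofs

theorem comp_iff {n : ℕ} {G : Germ} {t : TGerm n} (C : EtChart G t.germ) {r : ℕ} (a : RIdeal G r)
    (m : ℝ) : Comp C a m ↔ ∃ v, IsOverGerm G.x v ∧ MonoIn (g := t.g) (e' := t.e) C.un v ∧
      IsLogDiscI G.e a.I a.c v m := Iff.rfl

theorem RIdeal.isMld_iff {G : Germ} {r : ℕ} (a : RIdeal G r) (m : ℝ) :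
    a.IsMld m ↔ IsMldI G.e a.I a.c m := Iff.rfl

theorem gen_eq {L : Type} [Field L] [Algebra ℂ L] {S : Subalgebra ℂ L} {Z Z' : Set L}
    (h : gen S Z = gen S Z') : Submodule.span S Z = Submodule.span S Z' :=
  SetLike.coe_injective h

theorem inv_mld {G H : Germ} (C : EtChart G H) {r : ℕ} (a : RIdeal G r) (b : RIdeal H r)
    (h : Same C a b) (m : ℝ) : a.IsMld m ↔ b.IsMld m := by
  have h1 := C.un.isMldI_iff a.I b.I (fun j => gen_eq (h.2 j)) a.c m
  rw [RIdeal.isMld_iff, RIdeal.isMld_iff, ← h.1]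
  exact h1

theorem comp_of_nondeg {n : ℕ} {G : Germ} {t : TGerm n} (C : EtChart G t.germ) {r : ℕ}
    (a : RIdeal G r) {m : ℝ} (hB : NondegBoundary t.g t.B) (ha : MonoR C a) (hm0 : 0 ≤ m)
    (hm : a.IsMld m) : Comp C a m := by
  rw [comp_iff]
  refine computedI_of_nondeg (g := t.g) (e' := t.e) C.un hB a.I a.c (fun j => ?_) hm0 hm
  obtain ⟨D, hD, hDn, h⟩ := ha j
  exact ⟨D, hD, hDn, gen_eq h⟩

theorem comp_mem {n : ℕ} {G : Germ} {t : TGerm n} (C : EtChart G t.germ) {r : ℕ}
    (a : RIdeal G r) {m : ℝ} {Γ : Set ℝ} (hB : CoeffIn t.B Γ) (ha : a.In Γ) (hm0 : 0 ≤ m)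
    (hm : a.IsMld m) (hc : Comp C a m) : ∃ d ≤ n, ∃ r, m ∈ mldsR d r Γ :=
  mldI_mem (g := t.g) (e' := t.e) C.un hB a.I a.c (fun j => (ha j).1) (fun j => (ha j).2) hm0 hm
    ((comp_iff C a m).1 hc)

/-- Every pair is an étale chart of itself. -/
noncomputable def EtChart.refl (G : Germ) : EtChart G G where
  L := G.K
  aG := Algebra.id G.K
  aH := Algebra.id G.K
  S := G.X.R
  h := idEtale G.X
  h' := idEtale G.X
  T := G.X.T
  T' := G.X.T
  y := G.x
  hT := ⟨G.X.top, fun _ _ => rfl⟩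
  hT' := ⟨G.X.top, fun _ _ => rfl⟩
  hx := idEtale_im G.X G.x
  hP := idEtale_im G.X G.x
  agree := by
    intro w _ n n' hn hn'
    rw [hn.unique hn']

theorem comp_refl {n : ℕ} {t : TGerm n} {r : ℕ} (a : RIdeal t.germ r) {m : ℝ}
    (h : ∃ v, IsOverGerm t.g.P v ∧ IsMonomial n v ∧ a.IsLogDisc v m) :
    Comp (EtChart.refl t.germ) a m := by
  obtain ⟨v, hov, hv, hl⟩ := h
  exact ⟨v, hov, ⟨v, v, hov, fun _ _ => rfl, fun _ _ => rfl, hv⟩, hl⟩

end proofs

end Pool.Agent.Run7.h271.ML
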