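import Pool.Agent.Run7.h271.ML.Bd
import Pool.Agent.TH165.ACC.BddGeo

/-!
# Bounded monomial divisors computing minimal log discrepancies, and uniform ideal-adic semicontinuity
-/

set_option autoImplicit false
set_option linter.unusedSectionVars false

namespace Pool.Agent.Run7.h271.ML

open Pool.Agent.H436R3.Fol hiding ex
open Pool.Agent.H436R3.KT Pool.Agent.W497.Mld Pool.Agent.Helper58K9.ET
  Pool.Agent.TH165.ACC

variable {n d : ℕ} {K M : Type} [Field K] [Algebra ℂ K] [Field M] [Algebra ℂ M]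
  [Algebra (MvPolynomial (Fin n) ℂ) M] [IsFractionRing (MvPolynomial (Fin n) ℂ) M]
  [IsScalarTower ℂ (MvPolynomial (Fin n) ℂ) M]

variable {X : AffVar K} {B : EffDiv X} {x : Pt X} {e : LocEq B x} {g : ToricGerm n M}
    {B' : EffDiv g.X} {e' : LocEq B' g.P}

/-- The log discrepancies of monomial divisors, in the coordinates of a simplicial subcone. -/
theorem formula (C : Chart e e') {Γ : Set ℝ} (hB : CoeffIn B' Γ) {r : ℕ} (I : Fin r → Ideal X.R)
    (c : Fin r → ℝ) (hI : ∀ j, I j ≠ ⊥) (hc : ∀ j, c j ∈ Γ ∧ 0 < c j) (a : Fin d → Fin g.N)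
    (hne : ∃ (w : DVal C.L) (v' : DVal M) (v : DVal K), Rl g C.S C.y w v' ∧
      (∀ f : K, f ≠ 0 → w.ord (algebraMap K C.L f) = v.ord f) ∧ IsOverGerm x v ∧
      ∃ ω : Fin d → ℝ, (∀ i, 0 ≤ ω i) ∧ Coord (fun i => g.E (a i)) ω (tv v')) :
    ∃ (r' : ℕ) (S : Fin r' → Set (Fin d → ℕ)) (c' : Fin r' → ℝ),
      (∀ j, (S j).Nonempty ∧ 0 ∉ S j ∧ c' j ∈ Γ ∧ 0 < c' j) ∧
      ∀ (w : DVal C.L) (v' : DVal M) (v : DVal K), Rl g C.S C.y w v' →
        (∀ f : K, f ≠ 0 → w.ord (algebraMap K C.L f) = v.ord f) → IsOverGerm x v →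
        ∀ ω : Fin d → ℝ, (∀ i, 0 ≤ ω i) → Coord (fun i => g.E (a i)) ω (tv v') →
        (∀ a', IsLogDiscI e I c v a' ↔ a' = logDisc S c' ω) ∧
        (∀ a0, IsLogDisc e v a0 → a0 ≤ ∑ i, ω i) ∧
        ∀ (j : Fin r) (k : ℤ), IsOrdI (I j) v k → 0 ≤ k ∧
          (k : ℝ) * c j ≤ ∑ i, ω i - logDisc S c' ω := by
  classical
  obtain ⟨r', S, c', hS, hkey⟩ := key_formula e' hB a
  have hdiag : ∀ j, (∀ f ∈ I j, x f = 0) → ∃ S : Set (Fin d → ℕ), S.Nonempty ∧ 0 ∉ S ∧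
      ∀ (w : DVal C.L) (v' : DVal M), Rl g C.S C.y w v' → ∀ v : DVal K,
      (∀ f : K, f ≠ 0 → w.ord (algebraMap K C.L f) = v.ord f) → ∀ ω : Fin d → ℝ, (∀ i, 0 ≤ ω i) →
      Coord (fun i => g.E (a i)) ω (tv v') →
      (∃ k : ℤ, IsOrdI (I j) v k) ∧ ∀ k : ℤ, IsOrdI (I j) v k → ordAlong S ω = k := fun j hj =>
    diag C (I j) (hI j) hj a hne
  choose! SI hSI1 hSI2 hSI3 using hdiag
  let J0 : Finset (Fin r) := Finset.univ.filter fun j => ∀ f ∈ I j, x f = 0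
  have hJ0 : ∀ j, j ∈ J0 ↔ ∀ f ∈ I j, x f = 0 := fun j => by simp [J0]
  let Si : Fin r' ⊕ {j // j ∈ J0} → Set (Fin d → ℕ) := Sum.elim S fun j => SI j.1
  let ci : Fin r' ⊕ {j // j ∈ J0} → ℝ := Sum.elim c' fun j => c j.1
  let φ : Fin (Fintype.card (Fin r' ⊕ {j // j ∈ J0})) ≃ Fin r' ⊕ {j // j ∈ J0} :=
    (Fintype.equivFin _).symm
  have hS' : ∀ j, (Si (φ j)).Nonempty ∧ 0 ∉ Si (φ j) ∧ ci (φ j) ∈ Γ ∧ 0 < ci (φ j) := by
    intro j
    generalize φ j = z
    rcases z with j | ⟨j, hj⟩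
    · exact hS j
    · exact ⟨hSI1 j ((hJ0 j).1 hj), hSI2 j ((hJ0 j).1 hj), (hc j).1, (hc j).2⟩
  have hlog : ∀ ω : Fin d → ℝ, logDisc (fun j => Si (φ j)) (fun j => ci (φ j)) ω =
      logDisc S c' ω - ∑ j ∈ J0, c j * ordAlong (SI j) ω := by
    intro ω
    rw [logDisc, logDisc, φ.sum_comp fun z => ci z * ordAlong (Si z) ω, Fintype.sum_sum_type]
    have h3 : ∑ j : {j // j ∈ J0}, ci (Sum.inr j) * ordAlong (Si (Sum.inr j)) ω =
        ∑ j : {j // j ∈ J0}, c j.1 * ordAlong (SI j.1) ω := rfl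
    rw [h3, Finset.sum_coe_sort J0 fun j => c j * ordAlong (SI j) ω]
    have h4 : ∑ j : Fin r', ci (Sum.inl j) * ordAlong (Si (Sum.inl j)) ω =
        ∑ j, c' j * ordAlong (S j) ω := rfl
    rw [h4]
    ring
  refine ⟨_, fun j => Si (φ j), fun j => ci (φ j), hS', ?_⟩
  intro w v' v hr hv hov ω hω0 hω
  have hk1 := hkey v' hr.mon ω hω0 hω
  have hdd : ∀ a0, IsLogDisc e v a0 ↔ a0 = logDisc S c' ω := fun a0 => by
    rw [C.disc_iff hr.ov hv hr.res a0, logDisc_mon hr.mon, hk1]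
  have hsum : ∀ k : Fin r → ℤ, (∀ j, IsOrdI (I j) v (k j)) →
      ∑ j, c j * (k j : ℝ) = ∑ j ∈ J0, c j * ordAlong (SI j) ω := by
    intro k hk
    have h1 : ∀ j ∈ J0, c j * (k j : ℝ) = c j * ordAlong (SI j) ω := fun j hj => by
      rw [(hSI3 j ((hJ0 j).1 hj) w v' hr v hv ω hω0 hω).2 (k j) (hk j)]
    rw [← Finset.sum_congr rfl h1]
    symm
    apply Finset.sum_subset (Finset.subset_univ _)
    intro j _ hj
    have h2 := ord_of_unit hov fun h => hj ((hJ0 j).2 h)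
    rw [(hk j).unique h2]
    simp
  have hexk : ∀ j, ∃ k : ℤ, IsOrdI (I j) v k := by
    intro j
    by_cases hj : ∀ f ∈ I j, x f = 0
    · exact (hSI3 j hj w v' hr v hv ω hω0 hω).1
    · exact ⟨0, ord_of_unit hov hj⟩
  refine ⟨fun a' => ?_, fun a0 ha0 => ?_, fun j k hk => ?_⟩
  · rw [hlog]
    constructor
    · rintro ⟨a0, k, h1, h2, rfl⟩
      rw [(hdd a0).1 h1, hsum k h2]
    · rintro rfl
      choose k hk using hexk
      exact ⟨_, k, (hdd _).2 rfl, hk, by rw [hsum k hk]⟩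
  · rw [(hdd a0).1 ha0, logDisc]
    have : 0 ≤ ∑ j, c' j * ordAlong (S j) ω :=
      Finset.sum_nonneg fun j _ => mul_nonneg (hS j).2.2.2.le (ord_nonneg (hS j).1 hω0)
    linarith
  · have hk0 : 0 ≤ k := by
      obtain ⟨⟨f, -, hf0, rfl⟩, -⟩ := hk
      obtain ⟨⟨S1, -, hS1, hloc⟩, -⟩ := hov
      exact (hloc.1 _ (hS1 f.2)).resolve_left hf0
    refine ⟨hk0, ?_⟩
    have hnn : ∀ j, 0 ≤ ci (φ j) * ordAlong (Si (φ j)) ω := fun j =>
      mul_nonneg (hS' j).2.2.2.le (ord_nonneg (hS' j).1 hω0)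
    have hle : ∑ i, ω i - logDisc (fun j => Si (φ j)) (fun j => ci (φ j)) ω =
        ∑ j, ci (φ j) * ordAlong (Si (φ j)) ω := by
      rw [logDisc]
      ring
    rw [hle]
    by_cases hj : ∀ f ∈ I j, x f = 0
    · have h1 : (k : ℝ) = ordAlong (SI j) ω :=
        ((hSI3 j hj w v' hr v hv ω hω0 hω).2 k hk).symm
      have h2 := Finset.single_le_sum (f := fun j => ci (φ j) * ordAlong (Si (φ j)) ω)
        (fun j _ => hnn j) (Finset.mem_univ (φ.symm (Sum.inr ⟨j, (hJ0 j).2 hj⟩)))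
      refine le_trans (le_of_eq ?_) h2
      simp only [Equiv.apply_symm_apply]
      rw [h1, mul_comm]
      rfl
    · have h1 : k = 0 := hk.unique (ord_of_unit hov hj)
      rw [h1]
      simp only [Int.cast_zero, zero_mul]
      exact Finset.sum_nonneg fun j _ => hnn j

/-- **Boundedness**: the minimal log discrepancy is computed by a monomial divisor with bounded orders
along the ideals. -/
theorem bounded_comp {Γ : Set ℝ} (hΓ : Pool.Agent.TH165.ACC.IsDCC Γ) : ∃ (N : ℕ) (L : ℝ),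
    ∀ {K : Type} [Field K] [Algebra ℂ K] {X : AffVar K} {B : EffDiv X} {x : Pt X} {e : LocEq B x}
      {g : ToricGerm n M} {B' : EffDiv g.X} {e' : LocEq B' g.P} (C : Chart e e')
      (_ : CoeffIn B' Γ) {r : ℕ} (I : Fin r → Ideal X.R)
      (c : Fin r → ℝ) (_ : ∀ j, I j ≠ ⊥) (_ : ∀ j, c j ∈ Γ ∧ 0 < c j) {m : ℝ} (_ : 0 ≤ m)
      (_ : IsMldI e I c m) (_ : ∃ v, IsOverGerm x v ∧ MonoIn C v ∧ IsLogDiscI e I c v m),
      ∃ v, IsOverGerm x v ∧ MonoIn C v ∧ IsLogDiscI e I c v m ∧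
        (∀ a0, IsLogDisc e v a0 → a0 ≤ L) ∧
        ∀ (j : Fin r) (k : ℤ), IsOrdI (I j) v k → 0 ≤ k ∧ k < N := by
  classical
  choose L hL using fun d => bounded (n := d) hΓ
  obtain ⟨δ, hδ0, hδ⟩ := exists_min hΓ
  refine ⟨⌈(∑ d ∈ Finset.range (n + 1), |L d|) / δ⌉₊ + 1, ∑ d ∈ Finset.range (n + 1), |L d|, ?_⟩
  intro K _ _ X B x e g B' e' C hB r I c hI hc m hm0 hm hcomp
  obtain ⟨v1, hov1, ⟨w1, v1', hw1, hwv1, hwv1', hmon1⟩, hl1⟩ := hcomp
  have hr1 : Rl g C.S C.y w1 v1' := Rl.of C hw1 hwv1' hmon1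
  have hint0 := hr1.inter
  have hn := pos_of_mon hmon1
  obtain ⟨d, a, w0, hw0, hc0, D, hD⟩ := exists_simplex hint0.inCone
  obtain ⟨r', S, c', hS, hform⟩ := formula C hB I c hI hc a
    ⟨w1, v1', v1, hr1, hwv1, hov1, w0, fun i => (hw0 i).le, hc0⟩
  -- lifting of monomial divisors
  have hlift : ∀ (k : ℤ) (v' : DVal M) (w : Fin d → ℝ), 0 < k → IsMonomial n v' →
      IsOverGerm g.P v' → (∀ i, 0 < ((k : ℝ)⁻¹ • w) i) →
      Coord (fun i => g.E (a i)) ((k : ℝ)⁻¹ • w) (tv v') →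
      logDisc S c' w = k * logDisc S c' ((k : ℝ)⁻¹ • w) ∧
      m ≤ logDisc S c' ((k : ℝ)⁻¹ • w) ∧
      ∃ v, IsOverGerm x v ∧ MonoIn C v ∧ IsLogDiscI e I c v (logDisc S c' ((k : ℝ)⁻¹ • w)) ∧
        (∀ a0, IsLogDisc e v a0 → a0 ≤ ∑ i, ((k : ℝ)⁻¹ • w) i) ∧
        ∀ (j : Fin r) (k' : ℤ), IsOrdI (I j) v k' → 0 ≤ k' ∧
          (k' : ℝ) * c j ≤ ∑ i, ((k : ℝ)⁻¹ • w) i - logDisc S c' ((k : ℝ)⁻¹ • w) := by
    intro k v' w hk hv' hov' hpos hco
    have hk' : (0 : ℝ) < k := by exact_mod_cast hk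
    obtain ⟨w2, hw2, hwv'⟩ := up C.h' C.y v' (by rw [C.hP]; exact hov')
    obtain ⟨v, hov, hwv⟩ := down dens frac C.h C.y w2 hw2
    rw [C.hx] at hov
    have hr : Rl g C.S C.y w2 v' := Rl.of C hw2 hwv' hv'
    obtain ⟨h1, h0, h2⟩ := hform w2 v' v hr hwv hov _ (fun i => (hpos i).le) hco
    have h3 := (h1 _).2 rfl
    refine ⟨?_, hm.2 ⟨v, hov, h3⟩, v, hov, ⟨w2, v', hw2, hwv, hwv', hv'⟩, h3, h0, h2⟩
    rw [← logDisc_smul _ _ hk'.le, smul_smul, mul_inv_cancel₀ hk'.ne', one_smul]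
  have hlc : IsLc S c' := by
    refine isLc_of_int (fun j => (hS j).1) (fun j => (hS j).2.2.2) fun p hp => ?_
    have hp' : ∀ i, (0 : ℝ) < (p i : ℝ) := fun i => by exact_mod_cast hp i
    have hmem : (fun i => ((p i : ℝ) : UnitAddCircle)) ∈ GE (fun i => g.E (a i)) := by
      refine ⟨fun i => (p i : ℝ), fun k => ∑ i, (p i : ℤ) * g.E (a i) k, rfl, fun k => ?_⟩
      push_cast
      rfl
    obtain ⟨k, v, hk, hv, hov, hpos, hcv⟩ := exists_val hn hc0 hint0 hp' hmem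
    obtain ⟨h1, h2, -⟩ := hlift k v _ hk hv hov hpos hcv
    have hk' : (0 : ℝ) < k := by exact_mod_cast hk
    rw [h1]
    exact mul_nonneg hk'.le (hm0.trans h2)
  obtain ⟨s, hs, hsum, hle⟩ := hL d r' S c' hS hlc w0 hw0
  have hw1' : ∀ i, 0 < w0 i - s i := fun i => sub_pos.2 (hs i)
  have hmem : (fun i => ((w0 i - s i : ℝ) : UnitAddCircle)) ∈ GE (fun i => g.E (a i)) := by
    refine ⟨fun i => w0 i - s i, fun k => tv v1' k - ∑ i, (s i : ℤ) * g.E (a i) k, rfl,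
      fun k => ?_⟩
    push_cast
    rw [← hc0 k, ← Finset.sum_sub_distrib]
    exact Finset.sum_congr rfl fun i _ => by ring
  obtain ⟨k, v', hk, hv', hov', hpos, hcv⟩ := exists_val hn hc0 hint0 hw1' hmem
  obtain ⟨h1, h2, v, hov, hmv, hlv, hA, hord⟩ := hlift k v' _ hk hv' hov' hpos hcv
  have hk' : (0 : ℝ) < k := by exact_mod_cast hk
  have hk1 : (1 : ℝ) ≤ k := by exact_mod_cast hk
  have h3 : logDisc S c' w0 = m := by
    have h4 := (hform w1 v1' v1 hr1 hwv1 hov1 w0 (fun i => (hw0 i).le) hc0).1 m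
    exact (h4.1 hl1).symm
  have h4 : logDisc S c' ((k : ℝ)⁻¹ • fun i => w0 i - s i) = m := by
    refine le_antisymm ?_ h2
    rw [h1, h3] at hle
    nlinarith
  rw [h4] at hlv hord
  have h7 : ∑ i, ((k : ℝ)⁻¹ • fun i => w0 i - s i : Fin d → ℝ) i ≤
      ∑ d ∈ Finset.range (n + 1), |L d| := by
    have h8 : ∑ i, ((k : ℝ)⁻¹ • fun i => w0 i - s i : Fin d → ℝ) i ≤ ∑ i, (w0 i - s i) := by
      refine Finset.sum_le_sum fun i _ => ?_
      rw [Pi.smul_apply, smul_eq_mul]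
      exact mul_le_of_le_one_left (hw1' i).le (inv_le_one_of_one_le₀ hk1)
    refine h8.trans (hsum.trans ((le_abs_self _).trans ?_))
    exact Finset.single_le_sum (f := fun d => |L d|) (fun _ _ => abs_nonneg _)
      (Finset.mem_range.2 (Nat.lt_succ_of_le hD.le))
  refine ⟨v, hov, hmv, hlv, fun a0 ha0 => (hA a0 ha0).trans h7, fun j k' hk0 => ?_⟩
  obtain ⟨h5, h6⟩ := hord j k' hk0
  refine ⟨h5, ?_⟩
  have h9 : (k' : ℝ) * δ ≤ ∑ d ∈ Finset.range (n + 1), |L d| := by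
    have h10 : (k' : ℝ) * δ ≤ (k' : ℝ) * c j :=
      mul_le_mul_of_nonneg_left (hδ _ (hc j).1 (hc j).2) (by exact_mod_cast h5)
    linarith
  have h10 : (k' : ℝ) ≤ (∑ d ∈ Finset.range (n + 1), |L d|) / δ := by
    rwa [le_div_iff₀ hδ0]
  have h11 : (k' : ℝ) ≤ (⌈(∑ d ∈ Finset.range (n + 1), |L d|) / δ⌉₊ : ℝ) :=
    h10.trans (Nat.le_ceil _)
  have h12 : k' ≤ (⌈(∑ d ∈ Finset.range (n + 1), |L d|) / δ⌉₊ : ℤ) := by exact_mod_cast h11
  push_cast
  omega

/-- The order of an ideal at a divisor over `x` depends only on the ideal modulo a power of the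
maximal ideal which is larger than the order. -/
theorem ord_adic {I I' : Ideal X.R} {v : DVal K} (hov : IsOverGerm x v) {s : ℕ} {k : ℤ}
    (hII : I ⊔ RingHom.ker x ^ s = I' ⊔ RingHom.ker x ^ s) (hk : IsOrdI I v k) (hks : k < s) :
    IsOrdI I' v k := by
  have hreg : ∀ f : X.R, v.Reg (f : K) := by
    obtain ⟨⟨S, -, hS, hloc⟩, -⟩ := hov
    intro f
    exact hloc.1 _ (hS f.2)
  -- elements of the power of the maximal ideal
  have hpow : ∀ (s : ℕ) (h : X.R), h ∈ RingHom.ker x ^ s → AtLeast v s (h : K) := by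
    intro s
    induction s with
    | zero =>
      intro h _
      rcases hreg h with h0 | h0
      · exact Or.inl h0
      · exact Or.inr (by simpa using h0)
    | succ s ih =>
      intro h hh
      rw [pow_succ] at hh
      refine Submodule.mul_induction_on (C := fun h : X.R => AtLeast v ((s + 1 : ℕ) : ℤ) (h : K))
        hh ?_ ?_
      · intro a ha b hb
        have h1 := ih a ha
        have h2 : v.Pos (b : K) := (hov.2 b).2 (RingHom.mem_ker.1 hb)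
        by_cases ha0 : (a : K) = 0
        · left
          change (a : K) * (b : K) = 0
          rw [ha0, zero_mul]
        by_cases hb0 : (b : K) = 0
        · left
          change (a : K) * (b : K) = 0
          rw [hb0, mul_zero]
        right
        change _ ≤ v.ord ((a : K) * (b : K))
        rw [v.map_mul _ _ ha0 hb0]
        have h3 := h1.resolve_left ha0
        have h4 := h2.resolve_left hb0
        push_cast
        omega
      · intro a b ha hb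
        exact ha.add hb
  obtain ⟨⟨f, hf, hf0, hfk⟩, hmin⟩ := hk
  refine ⟨?_, ?_⟩
  · have h1 : f ∈ I' ⊔ RingHom.ker x ^ s := by
      rw [← hII]
      exact Submodule.mem_sup_left hf
    obtain ⟨g, hg, h, hh, hgh⟩ := Submodule.mem_sup.1 h1
    have h2 : (g : K) = (f : K) + -(h : K) := by
      rw [← hgh]
      change (g : K) = ((g : K) + (h : K)) + -(h : K)
      ring
    have h3 : AtLeast v (v.ord (f : K) + 1) (-(h : K)) := by
      refine ((hpow s h hh).neg).imp id fun h4 => ?_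
      rw [hfk]
      omega
    obtain ⟨h4, h5⟩ := ord_add_eq hf0 h3
    rw [← h2] at h4 h5
    exact ⟨g, hg, h4, h5.trans hfk⟩
  · rintro _ ⟨g, hg, hg0, rfl⟩
    have h1 : g ∈ I ⊔ RingHom.ker x ^ s := by
      rw [hII]
      exact Submodule.mem_sup_left hg
    obtain ⟨f', hf', h, hh, hgh⟩ := Submodule.mem_sup.1 h1
    have h2 : AtLeast v k (f' : K) := by
      by_cases h0 : (f' : K) = 0
      · exact Or.inl h0
      · exact Or.inr (hmin ⟨f', hf', h0, rfl⟩)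
    have h3 : AtLeast v k (h : K) := (hpow s h hh).imp id fun h4 => by omega
    have h4 := h2.add h3
    have h5 : (g : K) = (f' : K) + (h : K) := by rw [← hgh]; rfl
    rw [← h5] at h4
    exact h4.resolve_left hg0

/-! The bundled forms. -/

/-- The pair `(X, B)` with the `ℝ`-ideal `a` has an étale chart by a toric germ of dimension `n` with a
boundary `B'` with coefficients in `Γ`, and either `B'` is nondegenerate and the ideals are monomial in
the chart, or `m` is the log discrepancy of a divisor which is monomial in the étale toric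
coordinates. -/
def InClass (n : ℕ) (Γ : Set ℝ) {G : Germ} {r : ℕ} (a : RIdeal G r) (m : ℝ) : Prop :=
  ∃ (t : TGerm n) (C : EtChart G t.germ), CoeffIn t.B Γ ∧
    ((NondegBoundary t.g t.B ∧ MonoR C a) ∨ Comp C a m)

/-- The `s`-th power of the maximal ideal of the closed point `x`. -/
def maxPow {K : Type} [Field K] [Algebra ℂ K] {X : AffVar K} (x : Pt X) (s : ℕ) : Ideal X.R :=
  RingHom.ker x ^ s

/-- The ideal `I + 𝔪 ^ s`, where `𝔪` is the maximal ideal of the closed point `x`. -/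
def addPow {K : Type} [Field K] [Algebra ℂ K] {X : AffVar K} (x : Pt X) (s : ℕ)
    (I : Ideal X.R) : Ideal X.R :=
  I ⊔ maxPow x s

/-- The `ℝ`-ideals `a` and `b` have the same exponents, and their ideals are the same modulo the
`s`-th power of the maximal ideal of `x`. -/
def Cong {G : Germ} {r : ℕ} (s : ℕ) (a b : RIdeal G r) : Prop :=
  a.c = b.c ∧ ∀ j, addPow G.x s (a.I j) = addPow G.x s (b.I j)

theorem bounded_class (n : ℕ) {Γ : Set ℝ} (hΓ : Pool.Agent.TH165.ACC.IsDCC Γ) :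
    ∃ (s : ℕ) (L : ℝ), ∀ (r : ℕ) (G : Germ) (a : RIdeal G r) (m : ℝ), a.In Γ → 0 ≤ m →
      a.IsMld m → InClass n Γ a m → ∃ v, IsOverGerm G.x v ∧ a.IsLogDisc v m ∧
        (∀ a0, Pool.Agent.W497.Mld.IsLogDisc G.e v a0 → a0 ≤ L) ∧
        ∀ b : RIdeal G r, Cong s a b → b.IsLogDisc v m := by
  obtain ⟨s, L, h⟩ := bounded_comp (n := n) (M := FractionRing (MvPolynomial (Fin n) ℂ)) hΓ
  refine ⟨s, L, fun r G a m ha hm0 hm hcl => ?_⟩
  obtain ⟨t, C, hB, hor⟩ := hcl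
  have hcomp : Comp C a m := hor.elim (fun h => comp_of_nondeg C a h.1 h.2 hm0 hm) id
  obtain ⟨v, hov, -, hl, hA, hk⟩ := h (g := t.g) (e' := t.e) C.un hB a.I a.c
    (fun j => (ha j).1) (fun j => (ha j).2) hm0 hm ((comp_iff C a m).1 hcomp)
  refine ⟨v, hov, hl, hA, fun b hb => ?_⟩
  obtain ⟨a0, k, h1, h2, h3⟩ := hl
  refine ⟨a0, k, h1, fun j => ord_adic hov (hb.2 j) (h2 j) (hk j _ (h2 j)).2, ?_⟩
  rw [← hb.1]
  exact h3

end Pool.Agent.Run7.h271.ML
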