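import Pool.Agent.Helper58K9.ET.Acc
import Pool.Agent.Helper58K9.ET.Dens
import Pool.Agent.Helper58K9.ET.Down
import Pool.Agent.Helper58K9.ET.Up
import Pool.Agent.Helper58K9.ET.Extd
import Pool.Agent.Helper58K9.ET.Appr
import Pool.Agent.Helper58K9.ET.Chg
import Pool.Agent.Helper58K9.ET.Refl
import Pool.Agent.TH165.ACC.NFin

/-!
# Etale charts by toric germs with boundaries which need not be torus invariant
-/

set_option autoImplicit false

namespace Pool.Agent.Run7.h271.ML

open Pool.Agent.H436R3.Fol Pool.Agent.H436R3.KT Pool.Agent.W497.Mld Pool.Agent.Helper58K9.AR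
  Pool.Agent.Helper58K9.ET Pool.Agent.TH165.ACC

variable {K M : Type} [Field K] [Algebra ℂ K] [Field M] [Algebra ℂ M]

/-- An étale chart `(Y ∋ P, B')` of the pair `(X ∋ x, B)`: a variety `U = Spec S` with étale morphisms
`U → X` and `U → Y` and a closed point `y` of `U` over `x` and `P`, such that the pull-backs of
`K_X + B` and `K_Y + B'` to `U` agree at `y`: they have the same difference with the canonical divisor
of `U`, at all prime divisors `w` over `U ∋ y`. Here `e` and `e'` are the local equations of `K_X + B`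
at `x` and of `K_Y + B'` at `P`. -/
structure Chart {X : AffVar K} {B : EffDiv X} {x : Pt X} (e : LocEq B x)
    {Y : AffVar M} {B' : EffDiv Y} {P : Pt Y} (e' : LocEq B' P) where
  L : Type
  [fL : Field L]
  [aL : Algebra ℂ L]
  [aK : Algebra K L]
  [sK : IsScalarTower ℂ K L]
  [aM : Algebra M L]
  [sM : IsScalarTower ℂ M L]
  S : Subalgebra ℂ L
  h : Etale X S
  h' : Etale Y S
  T : Foliation L X.d
  T' : Foliation L Y.d
  y : S →ₐ[ℂ] ℂ
  hT : Ext X T
  hT' : Ext Y T'
  hx : h.im y = x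
  hP : h'.im y = P
  agree : ∀ w, OverPt S y w → ∀ n n' : ℤ, IsCanOrd T w n → IsCanOrd T' w n' →
      (n : ℝ) - ordE e w = (n' : ℝ) - ordE e' w

attribute [instance] Chart.fL Chart.aL Chart.aK Chart.sK Chart.aM Chart.sM

section

variable {X : AffVar K} {B : EffDiv X} {x : Pt X} {e : LocEq B x}
    {Y : AffVar M} {B' : EffDiv Y} {P : Pt Y} {e' : LocEq B' P}

/-- The log discrepancies agree. -/
theorem Chart.log_iff (C : Chart e e') (a : ℝ) :
    (∃ v, IsOverGerm x v ∧ IsLogDisc e v a) ↔ ∃ v, IsOverGerm P v ∧ IsLogDisc e' v a := by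
  obtain ⟨L, S, h, h', T, T', y, hT, hT', rfl, rfl, hag⟩ := C
  have hW : S_DOWN := down dens frac
  have hE : S_EXTD := extd frac
  rw [disc up hW dens hE appr h y T hT e a, disc up hW dens hE appr h' y T' hT' e' a]
  constructor
  · rintro ⟨w, hw, n, hn, ha⟩
    obtain ⟨n', hn'⟩ := chg T T' hT.top hT'.top w n hn
    refine ⟨w, hw, n', hn', ?_⟩
    have := hag w hw n n' hn hn'
    rw [ha]
    linarith
  · rintro ⟨w, hw, n', hn', ha⟩
    obtain ⟨n, hn⟩ := chg T' T hT'.top hT.top w n' hn'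
    refine ⟨w, hw, n, hn, ?_⟩
    have := hag w hw n n' hn hn'
    rw [ha]
    linarith

/-- The minimal log discrepancy is the same in an étale chart. -/
theorem Chart.isMld_iff (C : Chart e e') (m : ℝ) :
    Pool.Agent.W497.Mld.IsMld e m ↔ Pool.Agent.W497.Mld.IsMld e' m := by
  have key : {a | ∃ v, IsOverGerm x v ∧ IsLogDisc e v a} =
      {a | ∃ v, IsOverGerm P v ∧ IsLogDisc e' v a} := by
    ext a
    exact C.log_iff a
  unfold Pool.Agent.W497.Mld.IsMld
  rw [key]

/-- the log discrepancies of single divisors -/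
theorem Chart.disc_iff (C : Chart e e') {w : DVal C.L} {v : DVal K} {v' : DVal M}
    (hw : OverPt C.S C.y w) (h1 : ∀ f : K, f ≠ 0 → w.ord (algebraMap K C.L f) = v.ord f)
    (h2 : ∀ f : M, f ≠ 0 → w.ord (algebraMap M C.L f) = v'.ord f) (a : ℝ) :
    IsLogDisc e v a ↔ IsLogDisc e' v' a := by
  obtain ⟨L, S, h, h', T, T', y, hT, hT', rfl, rfl, hag⟩ := C
  have hE : S_EXTD := extd frac
  have c1 := fun n => can dens hE appr h y w v hw h1 T hT n
  have c2 := fun n => can dens hE appr h' y w v' hw h2 T' hT' n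
  have o1 : ordE e w = ∑ k, e.ρ k * (v.ord (e.g k) : ℝ) := by
    rw [ordE]
    exact Finset.sum_congr rfl fun k _ => by rw [h1 _ (e.ne k)]
  have o2 : ordE e' w = ∑ k, e'.ρ k * (v'.ord (e'.g k) : ℝ) := by
    rw [ordE]
    exact Finset.sum_congr rfl fun k _ => by rw [h2 _ (e'.ne k)]
  constructor
  · rintro ⟨n, hn, ha⟩
    have hn1 := (c1 n).1 hn
    obtain ⟨n', hn'⟩ := chg T T' hT.top hT'.top w n hn1
    refine ⟨n', (c2 n').2 hn', ?_⟩
    have := hag w hw n n' hn1 hn'
    rw [ha, ← o1, ← o2]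
    linarith
  · rintro ⟨n', hn', ha⟩
    have hn1 := (c2 n').1 hn'
    obtain ⟨n, hn⟩ := chg T' T hT'.top hT.top w n' hn1
    refine ⟨n, (c1 n).2 hn, ?_⟩
    have := hag w hw n n' hn hn1
    rw [ha, ← o1, ← o2]
    linarith

end

end Pool.Agent.Run7.h271.ML
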