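import Pool.Agent.Run7.h271.ML.Nd

/-!
# Étale invariance of minimal log discrepancies with ideals
-/

set_option autoImplicit false
set_option linter.unusedSectionVars false

namespace Pool.Agent.Run7.h271.ML

open Pool.Agent.H436R3.Fol hiding ex
open Pool.Agent.H436R3.KT Pool.Agent.W497.Mld Pool.Agent.Helper58K9.ET
  Pool.Agent.TH165.ACC

variable {K M : Type} [Field K] [Algebra ℂ K] [Field M] [Algebra ℂ M]
  {X : AffVar K} {B : EffDiv X} {x : Pt X} {e : LocEq B x}
  {Y : AffVar M} {B' : EffDiv Y} {P : Pt Y} {e' : LocEq B' P}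

/-- The ideals `I` on `X` and `I'` on `Y` generate the same ideal on `U`. -/
def SameIdeal (C : Chart e e') (I : Ideal X.R) (I' : Ideal Y.R) : Prop :=
  Submodule.span C.S ((fun f : X.R => algebraMap K C.L (f : K)) '' I) =
    Submodule.span C.S ((fun f : Y.R => algebraMap M C.L (f : M)) '' I')

theorem SameIdeal.ord {C : Chart e e'} {I : Ideal X.R} {I' : Ideal Y.R} (h : SameIdeal C I I')
    (w : DVal C.L) (v : DVal K) (v' : DVal M) (hw : OverPt C.S C.y w)
    (h1 : ∀ f : K, f ≠ 0 → w.ord (algebraMap K C.L f) = v.ord f)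
    (h2 : ∀ f : M, f ≠ 0 → w.ord (algebraMap M C.L f) = v'.ord f) (k : ℤ) :
    IsOrdI I v k ↔ IsOrdI I' v' k := by
  have hreg : ∀ s ∈ C.S, w.Reg s := fun s hs => reg_of_over hw ⟨s, hs⟩
  have h3 := span_ord hreg ((fun f : X.R => algebraMap K C.L (f : K)) '' I) k
  have h4 := span_ord hreg ((fun f : Y.R => algebraMap M C.L (f : M)) '' I') k
  have h5 : {i : ℤ | ∃ z ∈ ((fun f : X.R => algebraMap K C.L (f : K)) '' I), z ≠ 0 ∧
      w.ord z = i} = {i : ℤ | ∃ f ∈ I, (f : K) ≠ 0 ∧ v.ord (f : K) = i} := by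
    ext i
    constructor
    · rintro ⟨_, ⟨f, hf, rfl⟩, hf0, rfl⟩
      have hf0' : (f : K) ≠ 0 := fun h => hf0 (by
        change algebraMap K C.L (f : K) = 0
        rw [h, map_zero])
      exact ⟨f, hf, hf0', (h1 _ hf0').symm⟩
    · rintro ⟨f, hf, hf0, rfl⟩
      exact ⟨_, ⟨f, hf, rfl⟩, (map_ne_zero _).2 hf0, h1 _ hf0⟩
  have h6 : {i : ℤ | ∃ z ∈ ((fun f : Y.R => algebraMap M C.L (f : M)) '' I'), z ≠ 0 ∧
      w.ord z = i} = {i : ℤ | ∃ f ∈ I', (f : M) ≠ 0 ∧ v'.ord (f : M) = i} := by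
    ext i
    constructor
    · rintro ⟨_, ⟨f, hf, rfl⟩, hf0, rfl⟩
      have hf0' : (f : M) ≠ 0 := fun h => hf0 (by
        change algebraMap M C.L (f : M) = 0
        rw [h, map_zero])
      exact ⟨f, hf, hf0', (h2 _ hf0').symm⟩
    · rintro ⟨f, hf, hf0, rfl⟩
      exact ⟨_, ⟨f, hf, rfl⟩, (map_ne_zero _).2 hf0, h2 _ hf0⟩
  rw [h5] at h3
  rw [h6] at h4
  rw [IsOrdI, IsOrdI, ← h3, ← h4, h]

/-- The minimal log discrepancy can be computed in an étale chart. -/
theorem Chart.isMldI_iff (C : Chart e e') {r : ℕ} (I : Fin r → Ideal X.R) (I' : Fin r → Ideal Y.R)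
    (hI : ∀ j, SameIdeal C (I j) (I' j)) (c : Fin r → ℝ) (m : ℝ) :
    IsMldI e I c m ↔ IsMldI e' I' c m := by
  have key : {a | ∃ v, IsOverGerm x v ∧ IsLogDiscI e I c v a} =
      {a | ∃ v, IsOverGerm P v ∧ IsLogDiscI e' I' c v a} := by
    ext a
    constructor
    · rintro ⟨v, hov, a0, k, h1, h2, rfl⟩
      obtain ⟨w, hw, hwv⟩ := up C.h C.y v (by rw [C.hx]; exact hov)
      obtain ⟨v', hov', hwv'⟩ := down dens frac C.h' C.y w hw
      rw [C.hP] at hov'
      exact ⟨v', hov', a0, k, (C.disc_iff hw hwv hwv' a0).1 h1,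
        fun j => ((hI j).ord w v v' hw hwv hwv' _).1 (h2 j), rfl⟩
    · rintro ⟨v', hov', a0, k, h1, h2, rfl⟩
      obtain ⟨w, hw, hwv'⟩ := up C.h' C.y v' (by rw [C.hP]; exact hov')
      obtain ⟨v, hov, hwv⟩ := down dens frac C.h C.y w hw
      rw [C.hx] at hov
      exact ⟨v, hov, a0, k, (C.disc_iff hw hwv hwv' a0).2 h1,
        fun j => ((hI j).ord w v v' hw hwv hwv' _).2 (h2 j), rfl⟩
  unfold IsMldI
  rw [key]

/-- Without ideals the minimal log discrepancy is the usual one. -/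
theorem isMldI_zero {r : ℕ} (hr : r = 0) (I : Fin r → Ideal X.R) (c : Fin r → ℝ) (m : ℝ) :
    IsMldI e I c m ↔ Pool.Agent.W497.Mld.IsMld e m := by
  subst hr
  have key : {a | ∃ v, IsOverGerm x v ∧ IsLogDiscI e I c v a} =
      {a | ∃ v, IsOverGerm x v ∧ IsLogDisc e v a} := by
    ext a
    constructor
    · rintro ⟨v, hov, a0, k, h1, -, rfl⟩
      exact ⟨v, hov, by simpa using h1⟩
    · rintro ⟨v, hov, h1⟩
      exact ⟨v, hov, a, fun j => j.elim0, h1, fun j => j.elim0, by simp⟩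
  unfold IsMldI Pool.Agent.W497.Mld.IsMld
  rw [key]

/-- A set of real numbers which is the union of two sets with the ascending chain condition has it. -/
theorem acc_union2 {A C : Set ℝ} (hA : IsACC A) (hC : IsACC C) : IsACC (A ∪ C) := by
  intro u hu hmem
  -- one of the two sets contains infinitely many members of the sequence
  have h : (∀ N, ∃ k, N ≤ k ∧ u k ∈ A) ∨ (∀ N, ∃ k, N ≤ k ∧ u k ∈ C) := by
    by_contra hcon
    push Not at hcon
    obtain ⟨⟨N1, h1⟩, ⟨N2, h2⟩⟩ := hcon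
    rcases hmem (max N1 N2) with h3 | h3
    · exact h1 _ (le_max_left _ _) h3
    · exact h2 _ (le_max_right _ _) h3
  have key : ∀ D : Set ℝ, IsACC D → (∀ N, ∃ k, N ≤ k ∧ u k ∈ D) → ∃ K, ∀ k ≥ K, u k = u K := by
    intro D hD hinf
    choose f hf hfD using hinf
    let s : ℕ → ℕ := fun j => Nat.rec (f 0) (fun _ r => f (r + 1)) j
    have hs : ∀ j, s j < s (j + 1) := fun j => by
      have h1 : s (j + 1) = f (s j + 1) := rfl
      have h2 := hf (s j + 1)
      omega
    have hsm : StrictMono s := strictMono_nat_of_lt_succ hs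
    have hsD : ∀ j, u (s j) ∈ D := by
      intro j
      cases j with
      | zero => exact hfD 0
      | succ j => exact hfD (s j + 1)
    obtain ⟨J, hJ⟩ := hD (fun j => u (s j)) (fun a b hab => hu (hsm.monotone hab)) hsD
    refine ⟨s J, fun k hk => ?_⟩
    have h1 : u (s k) = u (s J) := hJ k ((hsm.le_apply (x := J)).trans hk)
    have h2 : u k ≤ u (s k) := hu hsm.le_apply
    exact le_antisymm (h2.trans h1.le) (hu hk)
  rcases h with h | h
  · exact key A hA h
  · exact key C hC h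

/-- Every pair is an étale chart of itself. -/
noncomputable def Chart.refl (e : LocEq B x) : Chart e e where
  L := K
  fL := inferInstance
  aL := inferInstance
  aK := Algebra.id K
  sK := inferInstance
  aM := Algebra.id K
  sM := inferInstance
  S := X.R
  h := idEtale X
  h' := idEtale X
  T := X.T
  T' := X.T
  y := x
  hT := ⟨X.top, fun _ _ => rfl⟩
  hT' := ⟨X.top, fun _ _ => rfl⟩
  hx := idEtale_im X x
  hP := idEtale_im X x
  agree := by
    intro w _ n n' hn hn'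
    rw [hn.unique hn']

theorem monoIn_refl {n : ℕ} [Algebra (MvPolynomial (Fin n) ℂ) M]
    [IsFractionRing (MvPolynomial (Fin n) ℂ) M] [IsScalarTower ℂ (MvPolynomial (Fin n) ℂ) M]
    {g : ToricGerm n M} {B : EffDiv g.X} (e : LocEq B g.P) {v : DVal M} (hov : IsOverGerm g.P v)
    (hv : IsMonomial n v) : MonoIn (Chart.refl e) v :=
  ⟨v, v, hov, fun _ _ => rfl, fun _ _ => rfl, hv⟩

end Pool.Agent.Run7.h271.ML
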