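import Pool.Agent.Run7.h271.ML.Tay3

/-!
# Minimal log discrepancies with ideals in étale toric coordinates
-/

set_option autoImplicit false
set_option linter.unusedSectionVars false

namespace Pool.Agent.Run7.h271.ML

open Pool.Agent.H436R3.Fol hiding ex
open Pool.Agent.H436R3.KT Pool.Agent.W497.Mld Pool.Agent.Helper58K9.ET
  Pool.Agent.TH165.ACC

section defs

variable {K : Type} [Field K] [Algebra ℂ K] {X : AffVar K}

/-- `k` is the order of the ideal `I` of functions on `X` at the divisor `v`: the least order of a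
nonzero element of `I`. -/
def IsOrdI (I : Ideal X.R) (v : DVal K) (k : ℤ) : Prop :=
  IsLeast {i : ℤ | ∃ f ∈ I, (f : K) ≠ 0 ∧ v.ord (f : K) = i} k

/-- `a` is the log discrepancy of `v` for the pair `(X, B)` with the `ℝ`-ideal `∏ j, (I j) ^ (c j)`:
the log discrepancy of `v` for `(X, B)`, minus `∑ j, c j * ord_v (I j)`. -/
def IsLogDiscI {B : EffDiv X} {x : Pt X} (e : LocEq B x) {r : ℕ} (I : Fin r → Ideal X.R)
    (c : Fin r → ℝ) (v : DVal K) (a : ℝ) : Prop :=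
  ∃ (a0 : ℝ) (k : Fin r → ℤ), IsLogDisc e v a0 ∧ (∀ j, IsOrdI (I j) v (k j)) ∧
    a = a0 - ∑ j, c j * (k j : ℝ)

/-- `m` is the minimal log discrepancy at `x` of the pair `(X, B)` with the `ℝ`-ideal
`∏ j, (I j) ^ (c j)`. -/
def IsMldI {B : EffDiv X} {x : Pt X} (e : LocEq B x) {r : ℕ} (I : Fin r → Ideal X.R)
    (c : Fin r → ℝ) (m : ℝ) : Prop :=
  IsLeast {a | ∃ v, IsOverGerm x v ∧ IsLogDiscI e I c v a} m

end defs

variable {n d : ℕ} {K M : Type} [Field K] [Algebra ℂ K] [Field M] [Algebra ℂ M]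
  [Algebra (MvPolynomial (Fin n) ℂ) M] [IsFractionRing (MvPolynomial (Fin n) ℂ) M]
  [IsScalarTower ℂ (MvPolynomial (Fin n) ℂ) M]

/-- The divisor `v` over `X ∋ x` is monomial in the étale toric coordinates given by the chart: it is
the restriction of a divisor `w` over `U ∋ y` whose restriction to the toric germ is monomial (toric). -/
def MonoIn {X : AffVar K} {B : EffDiv X} {x : Pt X} {e : LocEq B x} {g : ToricGerm n M}
    {B' : EffDiv g.X} {e' : LocEq B' g.P} (C : Chart e e') (v : DVal K) : Prop :=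
  ∃ (w : DVal C.L) (v' : DVal M), OverPt C.S C.y w ∧
    (∀ f : K, f ≠ 0 → w.ord (algebraMap K C.L f) = v.ord f) ∧
    (∀ f : M, f ≠ 0 → w.ord (algebraMap M C.L f) = v'.ord f) ∧ IsMonomial n v'

section

variable {X : AffVar K} {B : EffDiv X} {x : Pt X} {e : LocEq B x} {g : ToricGerm n M}
    {B' : EffDiv g.X} {e' : LocEq B' g.P}

theorem Rl.of (C : Chart e e') {w : DVal C.L} {v' : DVal M} (hw : OverPt C.S C.y w)
    (h2 : ∀ f : M, f ≠ 0 → w.ord (algebraMap M C.L f) = v'.ord f) (hm : IsMonomial n v') :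
    Rl g C.S C.y w v' := by
  refine ⟨hw, hm, h2, fun m hm hm0 => ?_⟩
  have hmem : ym M m ∈ g.X.R := by
    rw [g.hR]
    exact ym_mem_LA hm
  have h3 := g.hP ⟨ym M m, hmem⟩ m hm hm0 rfl
  rw [← C.hP] at h3
  have h4 : algebraMap M C.L (ym M m) ∈ C.S := C.h'.map_mem hmem
  have h5 : C.y ⟨_, h4⟩ = 0 := h3
  rcases (hw.2 ⟨_, h4⟩).2 h5 with h6 | h6
  · exact absurd h6 ((map_ne_zero _).2 (ym_ne _))
  · rw [← ord_ym (n := n), ← h2 _ (ym_ne _)]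
    exact h6

/-- the Newton diagram of an ideal -/
theorem taylor_ideal (C : Chart e e') (I : Ideal X.R) (hI : I ≠ ⊥) :
    ∃ D ⊆ Cn g.E, ∀ (w : DVal C.L) (v' : DVal M), Rl g C.S C.y w v' → ∀ v : DVal K,
      (∀ f : K, f ≠ 0 → w.ord (algebraMap K C.L f) = v.ord f) →
      (∃ k, IsLeast {i : ℤ | ∃ m ∈ D, pr m (tv v') = i} k) ∧
      ∀ k, IsOrdI I v k ↔ IsLeast {i : ℤ | ∃ m ∈ D, pr m (tv v') = i} k := by
  classical
  have hmem : ∀ f : X.R, algebraMap K C.L (f : K) ∈ C.S := fun f => C.h.map_mem f.2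
  have hT : ∀ f : X.R, (f : K) ≠ 0 → ∃ Sf ⊆ Cn g.E, ∀ (w : DVal C.L) (v' : DVal M),
      Rl g C.S C.y w v' → (∃ m ∈ Sf, w.ord (algebraMap K C.L (f : K)) = pr m (tv v')) ∧
        ∀ m ∈ Sf, w.ord (algebraMap K C.L (f : K)) ≤ pr m (tv v') := fun f hf =>
    taylor (h' := C.h') C.hP (hmem f) ((map_ne_zero _).2 hf)
  choose! Sf hSf hSf2 using hT
  refine ⟨{m | ∃ f ∈ I, (f : K) ≠ 0 ∧ m ∈ Sf f}, ?_, ?_⟩
  · rintro m ⟨f, -, hf0, hm⟩
    exact hSf f hf0 hm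
  · intro w v' hr v hv
    have h1 : ∀ f : X.R, (f : K) ≠ 0 → (∃ m ∈ Sf f, v.ord (f : K) = pr m (tv v')) ∧
        ∀ m ∈ Sf f, v.ord (f : K) ≤ pr m (tv v') := by
      intro f hf
      have := hSf2 f hf w v' hr
      rw [hv _ hf] at this
      exact this
    have h0 : ∃ f ∈ I, (f : K) ≠ 0 := by
      obtain ⟨f, hf, hf0⟩ := Submodule.exists_mem_ne_zero_of_ne_bot hI
      exact ⟨f, hf, fun h => hf0 (Subtype.ext h)⟩
    refine ⟨?_, ?_⟩
    · obtain ⟨f, hf, hf0⟩ := h0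
      obtain ⟨m, hm, -⟩ := (h1 f hf0).1
      obtain ⟨k, hk, hk2⟩ := Int.exists_least_of_bdd
        (P := fun i => ∃ m, (∃ f ∈ I, (f : K) ≠ 0 ∧ m ∈ Sf f) ∧ pr m (tv v') = i)
        ⟨0, by
          rintro _ ⟨m, ⟨f, -, hf0, hm⟩, rfl⟩
          exact hr.inter.inCone m (hSf f hf0 hm)⟩ ⟨_, m, ⟨f, hf, hf0, hm⟩, rfl⟩
      exact ⟨k, hk, fun i hi => hk2 i hi⟩
    · intro k
      constructor
      · rintro ⟨⟨f, hf, hf0, hk⟩, hk2⟩
        refine ⟨?_, ?_⟩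
        · obtain ⟨m, hm, h3⟩ := (h1 f hf0).1
          exact ⟨m, ⟨f, hf, hf0, hm⟩, by rw [← h3]; exact hk⟩
        · rintro _ ⟨m, ⟨f', hf', hf0', hm⟩, rfl⟩
          exact (hk2 ⟨f', hf', hf0', rfl⟩).trans ((h1 f' hf0').2 m hm)
      · rintro ⟨⟨m, ⟨f, hf, hf0, hm⟩, hk⟩, hk2⟩
        have h4 : ∀ f' ∈ I, (f' : K) ≠ 0 → k ≤ v.ord (f' : K) := by
          intro f' hf' hf0'
          obtain ⟨m', hm', h5⟩ := (h1 f' hf0').1
          rw [h5]
          exact hk2 ⟨m', ⟨f', hf', hf0', hm'⟩, rfl⟩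
        refine ⟨⟨f, hf, hf0, le_antisymm ?_ (h4 f hf hf0)⟩, ?_⟩
        · rw [← hk]
          exact (h1 f hf0).2 m hm
        · rintro _ ⟨f', hf', hf0', rfl⟩
          exact h4 f' hf' hf0'

/-- the set of exponents, in the coordinates of a simplicial subcone, of an ideal -/
theorem diag (C : Chart e e') (I : Ideal X.R) (hI : I ≠ ⊥) (hx : ∀ f ∈ I, x f = 0)
    (a : Fin d → Fin g.N) (hne : ∃ (w : DVal C.L) (v' : DVal M) (v : DVal K), Rl g C.S C.y w v' ∧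
      (∀ f : K, f ≠ 0 → w.ord (algebraMap K C.L f) = v.ord f) ∧ IsOverGerm x v ∧
      ∃ ω : Fin d → ℝ, (∀ i, 0 ≤ ω i) ∧ Coord (fun i => g.E (a i)) ω (tv v')) :
    ∃ S : Set (Fin d → ℕ), S.Nonempty ∧ 0 ∉ S ∧
      ∀ (w : DVal C.L) (v' : DVal M), Rl g C.S C.y w v' → ∀ v : DVal K,
      (∀ f : K, f ≠ 0 → w.ord (algebraMap K C.L f) = v.ord f) → ∀ ω : Fin d → ℝ, (∀ i, 0 ≤ ω i) →
      Coord (fun i => g.E (a i)) ω (tv v') →
      (∃ k : ℤ, IsOrdI I v k) ∧ ∀ k : ℤ, IsOrdI I v k → ordAlong S ω = k := by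
  obtain ⟨D, hD, hord⟩ := taylor_ideal C I hI
  have hsum : ∀ (v' : DVal M) (ω : Fin d → ℝ), Coord (fun i => g.E (a i)) ω (tv v') →
      ∀ (q : Fin d → ℕ) (m : Fin n → ℤ), (∀ i, (q i : ℤ) = pr m (g.E (a i))) →
      ∑ i, (q i : ℝ) * ω i = (pr m (tv v') : ℝ) := by
    intro v' ω hω q m hq
    rw [coord_pr hω]
    refine Finset.sum_congr rfl fun i _ => ?_
    rw [← hq i]
    push_cast
    ring
  have hex : ∀ m ∈ D, ∃ q : Fin d → ℕ, ∀ i, (q i : ℤ) = pr m (g.E (a i)) := fun m hm =>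
    ⟨fun i => (pr m (g.E (a i))).toNat, fun i => Int.toNat_of_nonneg (hD hm (a i))⟩
  refine ⟨{q | ∃ m ∈ D, ∀ i, (q i : ℤ) = pr m (g.E (a i))}, ?_, ?_, ?_⟩
  · obtain ⟨w, v', v, hr, hv, -, -⟩ := hne
    obtain ⟨⟨k, ⟨m, hm, -⟩, -⟩, -⟩ := hord w v' hr v hv
    obtain ⟨q, hq⟩ := hex m hm
    exact ⟨q, m, hm, hq⟩
  · rintro ⟨m, hm, hq⟩
    obtain ⟨w, v', v, hr, hv, hov, ω, hω0, hω⟩ := hne
    have h1 := hsum v' ω hω 0 m hq
    have h2 : pr m (tv v') = 0 := by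
      have h3 : (0 : ℝ) = (pr m (tv v') : ℝ) := by
        rw [← h1]
        simp
      exact_mod_cast h3.symm
    obtain ⟨⟨k, hk⟩, h4⟩ := hord w v' hr v hv
    obtain ⟨⟨f, hf, hf0, h5⟩, -⟩ := (h4 k).2 hk
    have h6 : k ≤ 0 := by
      rw [← h2]
      exact hk.2 ⟨m, hm, rfl⟩
    rcases (hov.2 f).2 (hx f hf) with h7 | h7
    · exact hf0 h7
    · omega
  · intro w v' hr v hv ω hω0 hω
    obtain ⟨⟨k, hk⟩, h4⟩ := hord w v' hr v hv
    refine ⟨⟨k, (h4 k).2 hk⟩, fun k hk => ?_⟩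
    obtain ⟨⟨m, hm, h5⟩, h6⟩ := (h4 k).1 hk
    apply IsLeast.csInf_eq
    refine ⟨?_, ?_⟩
    · obtain ⟨q, hq⟩ := hex m hm
      refine ⟨q, ⟨m, hm, hq⟩, ?_⟩
      change ∑ i, (q i : ℝ) * ω i = (k : ℝ)
      rw [hsum v' ω hω q m hq, h5]
    · rintro _ ⟨q, ⟨m', hm', hq⟩, rfl⟩
      change (k : ℝ) ≤ ∑ i, (q i : ℝ) * ω i
      rw [hsum v' ω hω q m' hq]
      exact_mod_cast h6 ⟨m', hm', rfl⟩

theorem ord_of_unit {I : Ideal X.R} {v : DVal K} (hov : IsOverGerm x v) (hx : ¬ ∀ f ∈ I, x f = 0) :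
    IsOrdI I v 0 := by
  push Not at hx
  obtain ⟨f, hf, hxf⟩ := hx
  have hreg : ∀ f : X.R, v.Reg (f : K) := by
    obtain ⟨⟨S, -, hS, hloc⟩, -⟩ := hov
    intro f
    exact hloc.1 _ (hS f.2)
  have h1 : ¬ v.Pos (f : K) := fun h => hxf ((hov.2 f).1 h)
  have h0 : (f : K) ≠ 0 := fun h => h1 (Or.inl h)
  refine ⟨⟨f, hf, h0, le_antisymm ?_ ((hreg f).resolve_left h0)⟩, ?_⟩
  · by_contra h
    exact h1 (Or.inr (by omega))
  · rintro _ ⟨f', -, h0', rfl⟩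
    exact (hreg f').resolve_left h0'

/-- the monomial valuation attached to a lattice point in the interior of a subcone (a copy of
`Pool.Agent.TH165.ACC.exists_val`) -/
theorem exists_val' {a : Fin d → Fin g.N} {w0 w : Fin d → ℝ}
    {u0 : Fin n → ℤ} (hn : 0 < n) (hc0 : Coord (fun i => g.E (a i)) w0 u0) (hint0 : g.Inter u0)
    (hw : ∀ i, 0 < w i) (hwG : (fun i => (w i : UnitAddCircle)) ∈ GE (fun i => g.E (a i))) :
    ∃ (k : ℤ) (v : DVal M), 0 < k ∧ IsMonomial n v ∧ IsOverGerm g.P v ∧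
      (∀ i, 0 < ((k : ℝ)⁻¹ • w) i) ∧ Coord (fun i => g.E (a i)) ((k : ℝ)⁻¹ • w) (tv v) := by
  obtain ⟨u, hu⟩ := coord_of_mem hwG
  have hint := inter_of_coord (g := g) hc0 hint0 hu hw
  obtain ⟨k, u', hk, hu', rfl⟩ := exists_prim (hint.ne_zero hn)
  obtain ⟨v, hv, htv⟩ := exists_mon (K := M) hu'
  have hk' : (0 : ℝ) < k := by exact_mod_cast hk
  have hw' : Coord (fun i => g.E (a i)) ((k : ℝ)⁻¹ • w) (tv v) := by
    intro j
    have h1 := hu j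
    rw [Pi.smul_apply, smul_eq_mul] at h1
    push_cast at h1
    rw [htv]
    simp only [Pi.smul_apply, smul_eq_mul, mul_assoc]
    rw [← Finset.mul_sum, h1]
    field_simp
  have hpos : ∀ i, 0 < ((k : ℝ)⁻¹ • w) i := fun i => mul_pos (inv_pos.2 hk') (hw i)
  have hint' : g.Inter (tv v) := inter_of_coord hc0 hint0 hw' hpos
  exact ⟨k, v, hk, hv, ToricGerm.overGerm hv hint', hpos, hw'⟩

/-- The geometric minimal log discrepancies are values of the combinatorial ones. -/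
theorem mldI_mem (C : Chart e e') {Γ : Set ℝ} (hB : CoeffIn B' Γ) {r : ℕ} (I : Fin r → Ideal X.R)
    (c : Fin r → ℝ) (hI : ∀ j, I j ≠ ⊥) (hc : ∀ j, c j ∈ Γ ∧ 0 < c j) {m : ℝ} (hm0 : 0 ≤ m)
    (hm : IsMldI e I c m)
    (hcomp : ∃ v, IsOverGerm x v ∧ MonoIn C v ∧ IsLogDiscI e I c v m) :
    ∃ d ≤ n, ∃ r, m ∈ mldsR d r Γ := by
  classical
  obtain ⟨v1, hov1, ⟨w1, v1', hw1, hwv1, hwv1', hmon1⟩, hl1⟩ := hcomp
  have hr1 : Rl g C.S C.y w1 v1' := Rl.of C hw1 hwv1' hmon1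
  have hint0 := hr1.inter
  obtain ⟨d, a, w0, hw0, hc0, D, hD⟩ := exists_simplex hint0.inCone
  obtain ⟨r', S, c', hS, hkey⟩ := key_formula e' hB a
  have hdiag : ∀ j, (∀ f ∈ I j, x f = 0) → ∃ S : Set (Fin d → ℕ), S.Nonempty ∧ 0 ∉ S ∧
      ∀ (w : DVal C.L) (v' : DVal M), Rl g C.S C.y w v' → ∀ v : DVal K,
      (∀ f : K, f ≠ 0 → w.ord (algebraMap K C.L f) = v.ord f) → ∀ ω : Fin d → ℝ, (∀ i, 0 ≤ ω i) →
      Coord (fun i => g.E (a i)) ω (tv v') →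
      (∃ k : ℤ, IsOrdI (I j) v k) ∧ ∀ k : ℤ, IsOrdI (I j) v k → ordAlong S ω = k := fun j hj =>
    diag C (I j) (hI j) hj a ⟨w1, v1', v1, hr1, hwv1, hov1, w0, fun i => (hw0 i).le, hc0⟩
  choose! SI hSI1 hSI2 hSI3 using hdiag
  let J0 : Finset (Fin r) := Finset.univ.filter fun j => ∀ f ∈ I j, x f = 0
  have hJ0 : ∀ j, j ∈ J0 ↔ ∀ f ∈ I j, x f = 0 := fun j => by simp [J0]
  let Si : Fin r' ⊕ {j // j ∈ J0} → Set (Fin d → ℕ) := Sum.elim S fun j => SI j.1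
  let ci : Fin r' ⊕ {j // j ∈ J0} → ℝ := Sum.elim c' fun j => c j.1
  let φ : Fin (Fintype.card (Fin r' ⊕ {j // j ∈ J0})) ≃ Fin r' ⊕ {j // j ∈ J0} :=
    (Fintype.equivFin _).symm
  have hS' : ∀ j, (Si (φ j)).Nonempty ∧ 0 ∉ Si (φ j) ∧ ci (φ j) ∈ Γ ∧ 0 < ci (φ j) := by
    intro j
    generalize φ j = z
    rcases z with j | ⟨j, hj⟩
    · exact hS j
    · exact ⟨hSI1 j ((hJ0 j).1 hj), hSI2 j ((hJ0 j).1 hj), (hc j).1, (hc j).2⟩
  have hlog : ∀ ω : Fin d → ℝ, logDisc (fun j => Si (φ j)) (fun j => ci (φ j)) ω =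
      logDisc S c' ω - ∑ j ∈ J0, c j * ordAlong (SI j) ω := by
    intro ω
    rw [logDisc, logDisc, φ.sum_comp fun z => ci z * ordAlong (Si z) ω, Fintype.sum_sum_type]
    have h3 : ∑ j : {j // j ∈ J0}, ci (Sum.inr j) * ordAlong (Si (Sum.inr j)) ω =
        ∑ j : {j // j ∈ J0}, c j.1 * ordAlong (SI j.1) ω := rfl
    rw [h3, Finset.sum_coe_sort J0 fun j => c j * ordAlong (SI j) ω]
    have h4 : ∑ j : Fin r', ci (Sum.inl j) * ordAlong (Si (Sum.inl j)) ω =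
        ∑ j, c' j * ordAlong (S j) ω := rfl
    rw [h4]
    ring
  -- the log discrepancies
  have hval : ∀ (w : DVal C.L) (v' : DVal M) (v : DVal K), Rl g C.S C.y w v' →
      (∀ f : K, f ≠ 0 → w.ord (algebraMap K C.L f) = v.ord f) → IsOverGerm x v →
      ∀ ω : Fin d → ℝ, (∀ i, 0 ≤ ω i) → Coord (fun i => g.E (a i)) ω (tv v') →
      ∀ a', IsLogDiscI e I c v a' ↔
        a' = logDisc (fun j => Si (φ j)) (fun j => ci (φ j)) ω := by
    intro w v' v hr hv hov ω hω0 hω a'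
    have hk1 := hkey v' hr.mon ω hω0 hω
    have hdd : ∀ a0, IsLogDisc e v a0 ↔ a0 = logDisc S c' ω := fun a0 => by
      rw [C.disc_iff hr.ov hv hr.res a0, logDisc_mon hr.mon, hk1]
    have hsum : ∀ k : Fin r → ℤ, (∀ j, IsOrdI (I j) v (k j)) →
        ∑ j, c j * (k j : ℝ) = ∑ j ∈ J0, c j * ordAlong (SI j) ω := by
      intro k hk
      have h1 : ∀ j ∈ J0, c j * (k j : ℝ) = c j * ordAlong (SI j) ω := fun j hj => by
        rw [(hSI3 j ((hJ0 j).1 hj) w v' hr v hv ω hω0 hω).2 (k j) (hk j)]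
      rw [← Finset.sum_congr rfl h1]
      symm
      apply Finset.sum_subset (Finset.subset_univ _)
      intro j _ hj
      have h2 := ord_of_unit hov fun h => hj ((hJ0 j).2 h)
      rw [(hk j).unique h2]
      simp
    have hexk : ∀ j, ∃ k : ℤ, IsOrdI (I j) v k := by
      intro j
      by_cases hj : ∀ f ∈ I j, x f = 0
      · exact (hSI3 j hj w v' hr v hv ω hω0 hω).1
      · exact ⟨0, ord_of_unit hov hj⟩
    rw [hlog]
    constructor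
    · rintro ⟨a0, k, h1, h2, rfl⟩
      rw [(hdd a0).1 h1, hsum k h2]
    · rintro rfl
      choose k hk using hexk
      exact ⟨_, k, (hdd _).2 rfl, hk, by rw [hsum k hk]⟩
  refine ⟨d, hD.le, _, GE (fun i => g.E (a i)), fun j => Si (φ j), fun j => ci (φ j),
    GE_finite hD, hS', IsLeast.isGLB ⟨?_, ?_⟩⟩
  · refine ⟨w0, hw0, ⟨w0, _, rfl, hc0⟩, ?_⟩
    exact (hval w1 v1' v1 hr1 hwv1 hov1 w0 (fun i => (hw0 i).le) hc0 m).1 hl1
  · rintro _ ⟨ω, hω, hωG, rfl⟩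
    obtain ⟨k, v', hk, hv', hov', hpos, hco⟩ := exists_val' (M := M) (pos_of_mon hmon1) hc0 hint0 hω hωG
    have hk' : (0 : ℝ) < k := by exact_mod_cast hk
    obtain ⟨w, hw, hwv'⟩ := up C.h' C.y v' (by rw [C.hP]; exact hov')
    obtain ⟨v, hov, hwv⟩ := down dens frac C.h C.y w hw
    rw [C.hx] at hov
    have hr : Rl g C.S C.y w v' := Rl.of C hw hwv' hv'
    have h3 := (hval w v' v hr hwv hov _ (fun i => (hpos i).le) hco _).2 rfl
    have h4 : m ≤ logDisc (fun j => Si (φ j)) (fun j => ci (φ j)) ((k : ℝ)⁻¹ • ω) :=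
      hm.2 ⟨v, hov, h3⟩
    have h5 : logDisc (fun j => Si (φ j)) (fun j => ci (φ j)) ω =
        k * logDisc (fun j => Si (φ j)) (fun j => ci (φ j)) ((k : ℝ)⁻¹ • ω) := by
      rw [← logDisc_smul _ _ hk'.le, smul_smul, mul_inv_cancel₀ hk'.ne', one_smul]
    rw [h5]
    have h6 : (1 : ℝ) ≤ k := by exact_mod_cast hk
    nlinarith

end

end Pool.Agent.Run7.h271.ML
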