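import Pool.Agent.Run7.h271.ML.Main

/-!
# Nondegenerate boundaries with monomial ideals in étale toric coordinates
-/

set_option autoImplicit false
set_option linter.unusedSectionVars false

namespace Pool.Agent.Run7.h271.ML

open Pool.Agent.H436R3.Fol hiding ex
open Pool.Agent.H436R3.KT Pool.Agent.W497.Mld Pool.Agent.Helper58K9.ET
  Pool.Agent.TH165.ACC

section toric

open MvPolynomial Pool.Agent.H436R3.Fol

variable {n : ℕ} {K : Type} [Field K] [Algebra ℂ K]
  [Algebra (MvPolynomial (Fin n) ℂ) K] [IsFractionRing (MvPolynomial (Fin n) ℂ) K]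
  [IsScalarTower ℂ (MvPolynomial (Fin n) ℂ) K]

/-- The log discrepancy of a divisor over a toric germ with a nondegenerate boundary is at least the
one of the toric valuation with the same weights (the first part of the proof of
`Pool.Agent.TH165.ACC.computed_of_nondeg`). -/
theorem disc_ge {g : ToricGerm n K} {B : EffDiv g.X} {e : LocEq B g.P} (hB : NondegBoundary g B)
    {v v' : DVal K} (hov : IsOverGerm g.P v) (hv' : IsMonomial n v') (hint' : g.Inter (tv v'))
    {k : ℤ} (hk : 0 < k) (htv' : (tv v : Fin n → ℤ) = k • tv v') {m : ℝ} (hm : IsLogDisc e v m) :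
    (k : ℝ) * (-∑ k, e.ρ k * (v'.ord (e.g k) : ℝ)) ≤ m := by
  classical
  obtain ⟨N, hN, hmv⟩ := hm
  obtain ⟨hB1, s, q, hq, hcomp⟩ := hB
  set a' : ℝ := -∑ k, e.ρ k * (v'.ord (e.g k) : ℝ) with ha'
  obtain ⟨F, c, hFp, hFd, hc⟩ := fact (n := n) e.ρ e.g e.ne
  let D : MvPolynomial (Fin n) ℂ → ℤ := fun p =>
    v.ord (jo (Fin n) K p) - k * v'.ord (jo (Fin n) K p)
  have hD0 : ∀ p, p ≠ 0 → 0 ≤ D p := fun p hp => by
    have := ord_ge_mon hv' hk htv' hp
    simp only [D]
    omega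
  have hDm : ∀ p r, p ≠ 0 → r ≠ 0 → D (p * r) = D p + D r := by
    intro p r hp hr
    simp only [D]
    rw [map_mul, v.map_mul _ _ (jo_ne hp) (jo_ne hr), v'.map_mul _ _ (jo_ne hp) (jo_ne hr)]
    ring
  have hDp : ∀ S : Finset (MvPolynomial (Fin n) ℂ), (∀ p ∈ S, p ≠ 0) →
      (∏ p ∈ S, p) ≠ 0 ∧ D (∏ p ∈ S, p) = ∑ p ∈ S, D p := by
    intro S
    induction S using Finset.induction_on with
    | empty =>
      intro _
      simp only [Finset.prod_empty, Finset.sum_empty, D, map_one, v.ord_one, v'.ord_one]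
      simp
    | insert b S hb ih =>
      intro hS
      obtain ⟨h2, h3⟩ := ih fun p hp => hS p (Finset.mem_insert_of_mem hp)
      have hb0 := hS b (Finset.mem_insert_self b S)
      rw [Finset.prod_insert hb, Finset.sum_insert hb, hDm _ _ hb0 h2, h3]
      exact ⟨mul_ne_zero hb0 h2, rfl⟩
  let F' : Finset (MvPolynomial (Fin n) ℂ) := F.filter fun p => Thr g p ∧ c p ≠ 0
  have hThr : ∀ p ∈ F, Thr g p → 0 ≤ c p ∧ c p ≤ 1 ∧ (c p ≠ 0 → ∃ j, p ∣ q j) := by
    rintro p hp ⟨hpp, hcv, hon⟩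
    obtain ⟨a, ha, h3⟩ := e.eq _ hon
    have hL := g.local_prime hpp hcv
    have h4 : a = 0 := ha.unique (can_unit g.e g.hT (by rw [← g.hR]; exact hL) hcv)
    have h5 : ∑ r ∈ F, c r * ((valP K p hpp).ord (jo (Fin n) K r) : ℝ) = c p := by
      rw [Finset.sum_eq_single p]
      · rw [valP_self]; push_cast; ring
      · intro r hr hrp
        rw [valP_other hpp (hFp r hr).ne_zero fun h => hrp (hFd p hp r hr h).symm]
        push_cast; ring
      · intro h; exact absurd hp h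
    rw [hc, h5, h4, Int.cast_zero, zero_add] at h3
    rw [← h3]
    refine ⟨mult_nonneg B _, hB1 _, fun h6 => ?_⟩
    obtain ⟨j, hj⟩ := hcomp _ hon hcv h6
    exact ⟨j, (valP_pos_iff hpp (q j)).1 hj⟩
  have h2 : ∑ p ∈ F, c p * (D p : ℝ) ≤ ∑ p ∈ F', (D p : ℝ) := by
    rw [Finset.sum_filter]
    refine Finset.sum_le_sum fun p hp => ?_
    have hDp0 : (0 : ℝ) ≤ D p := by exact_mod_cast hD0 p (hFp p hp).ne_zero
    by_cases h3 : Thr g p
    · obtain ⟨h4, h5, -⟩ := hThr p hp h3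
      by_cases h6 : c p = 0
      · rw [h6, zero_mul]
        split_ifs
        · exact hDp0
        · exact le_rfl
      · rw [if_pos ⟨h3, h6⟩]
        nlinarith
    · have h4 : D p = 0 := by
        have := eq_of_not_thr hov hv' hint'.inCone hk htv' (hFp p hp) h3
        simp only [D]
        omega
      rw [if_neg (fun h => h3 h.1), h4]
      simp
  have h3 : ∑ p ∈ F', D p ≤ ∑ j, D (q j) := by
    calc ∑ p ∈ F', D p ≤ ∑ p ∈ F', ∑ j, (if p ∣ q j then D p else 0) := by
          refine Finset.sum_le_sum fun p hp => ?_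
          obtain ⟨hpF, hpT, hpc⟩ := Finset.mem_filter.1 hp
          obtain ⟨j, hj⟩ := (hThr p hpF hpT).2.2 hpc
          have h4 : (if p ∣ q j then D p else 0) ≤ ∑ j, (if p ∣ q j then D p else 0) :=
            Finset.single_le_sum (f := fun j => if p ∣ q j then D p else 0) (fun i _ => by
              split_ifs
              · exact hD0 p (hFp p hpF).ne_zero
              · exact le_rfl) (Finset.mem_univ j)
          rwa [if_pos hj] at h4
      _ = ∑ j, ∑ p ∈ F', (if p ∣ q j then D p else 0) := Finset.sum_comm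
      _ ≤ ∑ j, D (q j) := by
          refine Finset.sum_le_sum fun j _ => ?_
          rw [← Finset.sum_filter]
          have h5 : ∀ p ∈ F'.filter (fun p => p ∣ q j), Prime p ∧ p ∈ F := fun p hp => by
            have := (Finset.mem_filter.1 (Finset.mem_filter.1 hp).1).1
            exact ⟨hFp p this, this⟩
          obtain ⟨h6, h7⟩ := hDp (F'.filter fun p => p ∣ q j) fun p hp => (h5 p hp).1.ne_zero
          obtain ⟨r, hr⟩ := prod_dvd (F'.filter fun p => p ∣ q j) (q j) (fun p hp => (h5 p hp).1)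
            (fun p hp p' hp' => hFd p (h5 p hp).2 p' (h5 p' hp').2)
            fun p hp => (Finset.mem_filter.1 hp).2
          have hr0 : r ≠ 0 := by
            rintro rfl
            rw [mul_zero] at hr
            exact hq.1 j hr
          have h8 : D (q j) = D (∏ p ∈ F'.filter (fun p => p ∣ q j), p) + D r := by
            rw [← hDm _ _ h6 hr0]
            exact congrArg D hr
          rw [h8, h7]
          have := hD0 r hr0
          linarith
  have h4 : ∑ j, D (q j) ≤ N + 1 := jac_nondeg hq hov hN hv' hk htv'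
  have h5 : (k : ℝ) * a' ≤ m := by
    have h6 : m - (k : ℝ) * a' = 1 + (N : ℝ) - ∑ p ∈ F, c p * (D p : ℝ) := by
      have h7 : ∑ p ∈ F, c p * (D p : ℝ) = ∑ p ∈ F, c p * (v.ord (jo (Fin n) K p) : ℝ) -
          (k : ℝ) * ∑ p ∈ F, c p * (v'.ord (jo (Fin n) K p) : ℝ) := by
        rw [Finset.mul_sum, ← Finset.sum_sub_distrib]
        refine Finset.sum_congr rfl fun p _ => ?_
        simp only [D]
        push_cast
        ring
      rw [h7, ← hc, ← hc, hmv, ha']
      ring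
    have h8 : (∑ p ∈ F', (D p : ℝ)) ≤ (N : ℝ) + 1 := by
      have := h3.trans h4
      exact_mod_cast this
    linarith
  exact h5

end toric

section spanord

variable {L : Type} [Field L] [Algebra ℂ L] {S : Subalgebra ℂ L}

theorem span_ord {w : DVal L} (hreg : ∀ s ∈ S, w.Reg s) (G : Set L) (k : ℤ) :
    IsLeast {i | ∃ z ∈ Submodule.span S G, z ≠ 0 ∧ w.ord z = i} k ↔
      IsLeast {i | ∃ z ∈ G, z ≠ 0 ∧ w.ord z = i} k := by
  have key : ∀ N : ℤ, (∀ z ∈ G, z ≠ 0 → N ≤ w.ord z) →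
      ∀ z ∈ Submodule.span S G, z ≠ 0 → N ≤ w.ord z := by
    intro N hN z hz hz0
    have h1 : AtLeast w N z := by
      induction hz using Submodule.span_induction with
      | mem x hx =>
        by_cases hx0 : x = 0
        · exact Or.inl hx0
        · exact Or.inr (hN x hx hx0)
      | zero => exact Or.inl rfl
      | add a c _ _ ha hc =>
        have ha' : AtLeast w N a := by
          by_cases h0 : a = 0
          · exact Or.inl h0
          · exact ha h0
        have hc' : AtLeast w N c := by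
          by_cases h0 : c = 0
          · exact Or.inl h0
          · exact hc h0
        exact ha'.add hc'
      | smul s a _ ha =>
        rw [Algebra.smul_def]
        by_cases h0 : a = 0
        · rw [h0, mul_zero]; exact Or.inl rfl
        · exact (ha h0).mul (hreg s s.2)
    exact h1.resolve_left hz0
  constructor
  · rintro ⟨⟨z, hz, hz0, hk⟩, hk2⟩
    have h1 : ∀ z ∈ G, z ≠ 0 → k ≤ w.ord z := fun z hz hz0 =>
      hk2 ⟨z, Submodule.subset_span hz, hz0, rfl⟩
    refine ⟨?_, ?_⟩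
    · by_contra hcon
      have h2 := key (k + 1) (fun z hz hz0 => by
        have h3 := h1 z hz hz0
        rcases h3.eq_or_lt with h4 | h4
        · exact absurd ⟨z, hz, hz0, h4.symm⟩ hcon
        · omega) z hz hz0
      omega
    · rintro _ ⟨z, hz, hz0, rfl⟩
      exact h1 z hz hz0
  · rintro ⟨⟨z, hz, hz0, hk⟩, hk2⟩
    refine ⟨⟨z, Submodule.subset_span hz, hz0, hk⟩, ?_⟩
    rintro _ ⟨z, hz, hz0, rfl⟩
    exact key k (fun z hz hz0 => hk2 ⟨z, hz, hz0, rfl⟩) z hz hz0

end spanord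

variable {n d : ℕ} {K M : Type} [Field K] [Algebra ℂ K] [Field M] [Algebra ℂ M]
  [Algebra (MvPolynomial (Fin n) ℂ) M] [IsFractionRing (MvPolynomial (Fin n) ℂ) M]
  [IsScalarTower ℂ (MvPolynomial (Fin n) ℂ) M]

variable {X : AffVar K} {B : EffDiv X} {x : Pt X} {e : LocEq B x} {g : ToricGerm n M}
    {B' : EffDiv g.X} {e' : LocEq B' g.P}

/-- The ideal `I` of functions on `X` is monomial in the étale toric coordinates: on `U` it generates
the same ideal as a set of monomials on the toric germ. -/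
def MonoIdeal (C : Chart e e') (I : Ideal X.R) : Prop :=
  ∃ D ⊆ Cn g.E, D.Nonempty ∧ Submodule.span C.S ((fun f : X.R => algebraMap K C.L (f : K)) '' I) =
    Submodule.span C.S ((fun m => algebraMap M C.L (ym M m)) '' D)

theorem MonoIdeal.ord {C : Chart e e'} {I : Ideal X.R} (h : MonoIdeal C I) :
    ∃ D ⊆ Cn g.E, D.Nonempty ∧ ∀ (w : DVal C.L) (v : DVal K) (v' : DVal M), OverPt C.S C.y w →
      (∀ f : K, f ≠ 0 → w.ord (algebraMap K C.L f) = v.ord f) →
      (∀ f : M, f ≠ 0 → w.ord (algebraMap M C.L f) = v'.ord f) → ∀ k : ℤ,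
      IsOrdI I v k ↔ IsLeast {i : ℤ | ∃ m ∈ D, pr m (tv v') = i} k := by
  obtain ⟨D, hD, hDn, hspan⟩ := h
  refine ⟨D, hD, hDn, fun w v v' hw h1 h2 k => ?_⟩
  have hreg : ∀ s ∈ C.S, w.Reg s := fun s hs => reg_of_over hw ⟨s, hs⟩
  have h3 := span_ord hreg ((fun f : X.R => algebraMap K C.L (f : K)) '' I) k
  have h4 := span_ord hreg ((fun m => algebraMap M C.L (ym M m)) '' D) k
  have h5 : {i : ℤ | ∃ z ∈ ((fun f : X.R => algebraMap K C.L (f : K)) '' I), z ≠ 0 ∧
      w.ord z = i} = {i : ℤ | ∃ f ∈ I, (f : K) ≠ 0 ∧ v.ord (f : K) = i} := by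
    ext i
    constructor
    · rintro ⟨_, ⟨f, hf, rfl⟩, hf0, rfl⟩
      have hf0' : (f : K) ≠ 0 := fun h => hf0 (by
        change algebraMap K C.L (f : K) = 0
        rw [h, map_zero])
      exact ⟨f, hf, hf0', (h1 _ hf0').symm⟩
    · rintro ⟨f, hf, hf0, rfl⟩
      exact ⟨_, ⟨f, hf, rfl⟩, (map_ne_zero _).2 hf0, h1 _ hf0⟩
  have h6 : {i : ℤ | ∃ z ∈ ((fun m => algebraMap M C.L (ym M m)) '' D), z ≠ 0 ∧
      w.ord z = i} = {i : ℤ | ∃ m ∈ D, pr m (tv v') = i} := by
    ext i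
    constructor
    · rintro ⟨_, ⟨m, hm, rfl⟩, -, rfl⟩
      refine ⟨m, hm, ?_⟩
      change _ = w.ord (algebraMap M C.L (ym M m))
      rw [h2 _ (ym_ne _), ord_ym]
    · rintro ⟨m, hm, rfl⟩
      refine ⟨_, ⟨m, hm, rfl⟩, (map_ne_zero _).2 (ym_ne _), ?_⟩
      change w.ord (algebraMap M C.L (ym M m)) = _
      rw [h2 _ (ym_ne _), ord_ym]
  rw [h5] at h3
  rw [h6] at h4
  rw [IsOrdI, ← h3, ← h4, hspan]

/-- For nondegenerate boundaries and monomial ideals the minimal log discrepancy is computed by a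
monomial valuation. -/
theorem computedI_of_nondeg (C : Chart e e') (hB : NondegBoundary g B') {r : ℕ}
    (I : Fin r → Ideal X.R) (c : Fin r → ℝ) (hI : ∀ j, MonoIdeal C (I j)) {m : ℝ} (hm0 : 0 ≤ m)
    (hm : IsMldI e I c m) : ∃ v, IsOverGerm x v ∧ MonoIn C v ∧ IsLogDiscI e I c v m := by
  classical
  obtain ⟨⟨v, hov, a0, κ, hl, hκ, hma⟩, hleast⟩ := hm
  obtain ⟨w, hw, hwv⟩ := up C.h C.y v (by rw [C.hx]; exact hov)
  obtain ⟨v1, hov1, hwv1⟩ := down dens frac C.h' C.y w hw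
  rw [C.hP] at hov1
  have hl1 : IsLogDisc e' v1 a0 := (C.disc_iff hw hwv hwv1 a0).1 hl
  have hint := ToricGerm.inter_of_over (n := n) hov1
  obtain ⟨k, u', hk, hu', htv'⟩ := exists_prim (ne_zero_of_inter hint)
  obtain ⟨v', hv', rfl⟩ := exists_mon (K := M) hu'
  have hint' : g.Inter (tv v') := by
    intro r hr hr0
    have h1 := hint r hr hr0
    rw [htv', pr_smul_right] at h1
    exact (pos_iff_pos_of_mul_pos h1).1 hk
  have hov' := ToricGerm.overGerm hv' hint'
  have h1 := disc_ge hB hov1 hv' hint' hk htv' hl1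
  set a' : ℝ := -∑ k, e'.ρ k * (v'.ord (e'.g k) : ℝ) with ha'
  have hl' : IsLogDisc e' v' a' := (logDisc_mon hv').2 rfl
  obtain ⟨w2, hw2, hwv2'⟩ := up C.h' C.y v' (by rw [C.hP]; exact hov')
  obtain ⟨v2, hov2, hwv2⟩ := down dens frac C.h C.y w2 hw2
  rw [C.hx] at hov2
  have hl2 : IsLogDisc e v2 a' := (C.disc_iff hw2 hwv2 hwv2' a').2 hl'
  have hex : ∀ j, ∃ k' : ℤ, IsOrdI (I j) v2 k' ∧ κ j = k * k' := by
    intro j
    obtain ⟨D, hD, hDn, hord⟩ := (hI j).ord
    have h2 := (hord w v v1 hw hwv hwv1 (κ j)).1 (hκ j)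
    obtain ⟨⟨m0, hm0', h3⟩, h4⟩ := h2
    rw [htv', pr_smul_right] at h3
    refine ⟨pr m0 (tv v'), (hord w2 v2 v' hw2 hwv2 hwv2' _).2 ⟨⟨m0, hm0', rfl⟩, ?_⟩, h3.symm⟩
    rintro _ ⟨m1, hm1, rfl⟩
    have h5 := h4 ⟨m1, hm1, rfl⟩
    rw [htv', pr_smul_right, ← h3] at h5
    exact le_of_mul_le_mul_left h5 hk
  choose κ' hκ' hκκ using hex
  set a2 : ℝ := a' - ∑ j, c j * (κ' j : ℝ) with ha2
  have hL2 : IsLogDiscI e I c v2 a2 := ⟨a', κ', hl2, hκ', rfl⟩
  have h2 : m ≤ a2 := hleast ⟨v2, hov2, hL2⟩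
  have h3 : (k : ℝ) * a2 ≤ m := by
    have h4 : ∑ j, c j * (κ j : ℝ) = (k : ℝ) * ∑ j, c j * (κ' j : ℝ) := by
      rw [Finset.mul_sum]
      refine Finset.sum_congr rfl fun j _ => ?_
      rw [hκκ j]
      push_cast
      ring
    rw [hma, h4, ha2, mul_sub]
    linarith
  have h6 : (1 : ℝ) ≤ k := by exact_mod_cast hk
  have h7 : a2 ≤ m := by nlinarith
  rw [le_antisymm h2 h7]
  exact ⟨v2, hov2, ⟨w2, v', hw2, hwv2, hwv2', hv'⟩, hL2⟩

end Pool.Agent.Run7.h271.ML
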