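import Pool.Agent.Run7.h271.ML.Bd
import Pool.Agent.Run7.h530.TQ.QDefs

/-!
# Finite quotients of pairs with ideals: definitions
-/

set_option autoImplicit false

namespace Pool.Agent.Run7.h271.ML

open Pool.Agent.H436R3.Fol hiding ex tw
open Pool.Agent.H436R3.KT Pool.Agent.W497.Mld Pool.Agent.Helper58K9.ET
  Pool.Agent.TH165.ACC Run7.h530.TQ

/-- The `ℝ`-ideal `a` on the germ `G` has an étale chart by a toric germ of dimension `n` with a
boundary with coefficients in `Γ`, not necessarily torus invariant, and either this boundary is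
nondegenerate and the ideals are monomial in the chart, or the minimal log discrepancy of `a`, if it is
nonnegative, is computed by a divisor which is monomial in the étale toric coordinates. -/
def HasChart (n : ℕ) (Γ : Set ℝ) {G : Germ} {r : ℕ} (a : RIdeal G r) : Prop :=
  ∃ (t : TGerm n) (C : EtChart G t.germ), CoeffIn t.B Γ ∧
    ((NondegBoundary t.g t.B ∧ MonoR C a) ∨ ∀ m : ℝ, 0 ≤ m → a.IsMld m → Comp C a m)

/-- A pair, with local equations at all closed points. -/
structure Pr where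
  K : Type
  [fK : Field K]
  [aK : Algebra ℂ K]
  X : AffVar K
  B : EffDiv X
  E : ∀ x : Pt X, LocEq B x

attribute [instance] Pr.fK Pr.aK

/-- the germ of the pair at a closed point -/
def Pr.at (A : Pr) (x : Pt A.X) : Germ where
  K := A.K
  X := A.X
  B := A.B
  x := x
  e := A.E x

/-- The pair `Z` is the quotient of the pair `X` by the group `G` of automorphisms of `X`. -/
structure Qt (Z X : Pr) (G : Subgroup (X.K ≃ₐ[ℂ] X.K)) where
  [alg : Algebra Z.K X.K]
  [tow : IsScalarTower ℂ Z.K X.K]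
  quot : IsQuot Z.E X.E G

/-- the closed point `x` of `X` lies over the closed point `z` of the quotient -/
def Qt.Over {Z X : Pr} {G : Subgroup (X.K ≃ₐ[ℂ] X.K)} (q : Qt Z X G) (x : Pt X.X) (z : Pt Z.X) :
    Prop :=
  letI := q.alg
  LiesOver x z

/-- the ideal on `X` generated by the ideal `I` on the quotient -/
def Qt.pull {Z X : Pr} {G : Subgroup (X.K ≃ₐ[ℂ] X.K)} (q : Qt Z X G) (I : Ideal Z.X.R) : Set X.K :=
  letI := q.alg
  gen X.X.R (img I : Set X.K)

/-- The automorphism `σ` of the pair fixes the closed point `x`. -/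
def Fix {X : Pr} (x : Pt X.X) (σ : X.K ≃ₐ[ℂ] X.K) : Prop :=
  ∀ f f' : X.X.R, (f' : X.K) = σ f → x f = x f'

/-- The quotient of the pair `X` by the cyclic group of automorphisms which is generated by `σ`, with
an `ℝ`-ideal `b` which generates on `X` the same `ℝ`-ideal as the `ℝ`-ideal `a` on the quotient `Z` of
`X` by `G`, has at the image of `x` a chart as in `HasChart`. -/
def CycChart (n : ℕ) (Γ : Set ℝ) {Z X : Pr} {G : Subgroup (X.K ≃ₐ[ℂ] X.K)} (q : Qt Z X G)
    {z : Pt Z.X} {r : ℕ} (a : RIdeal (Z.at z) r) (x : Pt X.X) (σ : X.K ≃ₐ[ℂ] X.K) : Prop :=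
  ∃ (Z1 : Pr) (q1 : Qt Z1 X (Subgroup.zpowers σ)) (z1 : Pt Z1.X) (b : RIdeal (Z1.at z1) r),
    q1.Over x z1 ∧ b.c = a.c ∧ (∀ j, q1.pull (b.I j) = q.pull (a.I j)) ∧ HasChart n Γ b

/-- The `ℝ`-ideal `a` on the germ `H` of a pair is, étale locally, an `ℝ`-ideal `b` on the quotient `Z`
of a pair `X` by a finite group `G` of automorphisms of `X`, such that, at a point `x` of `X` over the
point `z` of `Z`, the quotients of `X` by the cyclic groups generated by the elements of `G` which fix
`x` have charts as in `HasChart`. -/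
def IsChartQuot (n : ℕ) (Γ : Set ℝ) {H : Germ} {r : ℕ} (a : RIdeal H r) : Prop :=
  ∃ (Z X : Pr) (G : Subgroup (X.K ≃ₐ[ℂ] X.K)) (q : Qt Z X G) (z : Pt Z.X) (x : Pt X.X)
    (C : EtChart H (Z.at z)) (b : RIdeal (Z.at z) r), Finite G ∧ q.Over x z ∧ Same C a b ∧
    ∀ σ ∈ G, Fix x σ → CycChart n Γ q b x σ

/-- The minimal log discrepancies `m ≥ 0` of the pairs with `ℝ`-ideals with exponents in `Γ` and with
`IsChartQuot n Γ`. -/
def chartQuotMlds (n : ℕ) (Γ : Set ℝ) : Set ℝ :=
  {m : ℝ | 0 ≤ m ∧ ∃ (H : Germ) (r : ℕ) (a : RIdeal H r), a.In Γ ∧ IsChartQuot n Γ a ∧ a.IsMld m}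

end Pool.Agent.Run7.h271.ML
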