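import Pool.Agent.Run7.h271.ML.QDf
import Pool.Agent.Run7.h530.TQ.ArrQ

/-!
# Finite quotients of pairs with ideals, and with boundaries which are not torus invariant
-/

set_option autoImplicit false
set_option linter.unusedSectionVars false

namespace Pool.Agent.Run7.h271.ML

open Pool.Agent.H436R3.Fol hiding ex tw
open Pool.Agent.H436R3.KT Pool.Agent.W497.Mld Pool.Agent.Helper58K9.ET
  Pool.Agent.TH165.ACC Run7.h530.TQ Q47.TV Q47.QM

section general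

variable {K0 K : Type} [Field K0] [Algebra ℂ K0] [Field K] [Algebra ℂ K] [Algebra K0 K]
  [IsScalarTower ℂ K0 K]

/-- The order of the pull-back of an ideal. -/
theorem ord_up {Z : AffVar K0} {S : Subalgebra ℂ K} {w : DVal K} {v : DVal K0} {e : ℕ}
    (he : 0 < e) (hreg : ∀ s ∈ S, w.Reg s)
    (h : ∀ f : K0, f ≠ 0 → w.ord (algebraMap K0 K f) = e * v.ord f) (I : Ideal Z.R) :
    (∀ k : ℤ, IsOrdI I v k ↔
      IsLeast {i : ℤ | ∃ z ∈ gen S (img I : Set K), z ≠ 0 ∧ w.ord z = i} (e * k)) ∧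
    ∀ j : ℤ, IsLeast {i : ℤ | ∃ z ∈ gen S (img I : Set K), z ≠ 0 ∧ w.ord z = i} j →
      ∃ k : ℤ, j = e * k := by
  have he' : (0 : ℤ) < e := by exact_mod_cast he
  have h5 : {i : ℤ | ∃ z ∈ (img I : Set K), z ≠ 0 ∧ w.ord z = i} =
      {i : ℤ | ∃ k, (∃ f ∈ I, (f : K0) ≠ 0 ∧ v.ord (f : K0) = k) ∧ i = e * k} := by
    ext i
    constructor
    · rintro ⟨_, ⟨f, hf, rfl⟩, hf0, rfl⟩
      have hf0' : (f : K0) ≠ 0 := fun h => hf0 (by
        change algebraMap K0 K (f : K0) = 0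
        rw [h, map_zero])
      exact ⟨_, ⟨f, hf, hf0', rfl⟩, h _ hf0'⟩
    · rintro ⟨_, ⟨f, hf, hf0, rfl⟩, rfl⟩
      exact ⟨_, ⟨f, hf, rfl⟩, (map_ne_zero _).2 hf0, h _ hf0⟩
  have h3 : ∀ j, IsLeast {i : ℤ | ∃ z ∈ gen S (img I : Set K), z ≠ 0 ∧ w.ord z = i} j ↔
      IsLeast {i : ℤ | ∃ k, (∃ f ∈ I, (f : K0) ≠ 0 ∧ v.ord (f : K0) = k) ∧ i = e * k} j :=
    fun j => by
      rw [← h5]
      exact span_ord hreg (img I : Set K) j
  refine ⟨fun k => ?_, fun j hj => ?_⟩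
  · rw [h3]
    constructor
    · rintro ⟨h1, h2⟩
      refine ⟨⟨k, h1, rfl⟩, ?_⟩
      rintro _ ⟨k', hk', rfl⟩
      exact mul_le_mul_of_nonneg_left (h2 hk') he'.le
    · rintro ⟨⟨k', hk', hkk⟩, h2⟩
      have h6 : k = k' := mul_left_cancel₀ he'.ne' hkk
      subst h6
      refine ⟨hk', fun i hi => ?_⟩
      exact le_of_mul_le_mul_left (h2 ⟨i, hi, rfl⟩) he'
  · obtain ⟨⟨k, -, hk⟩, -⟩ := (h3 j).1 hj
    exact ⟨k, hk⟩

variable {Z : AffVar K0} {BZ : EffDiv Z} {EZ : ∀ z : Pt Z, LocEq BZ z}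
  {X : AffVar K} {B : EffDiv X} {E : ∀ x : Pt X, LocEq B x} {G : Subgroup (K ≃ₐ[ℂ] K)}

/-- The minimal log discrepancy of the quotient, with ideals, is the one of a cyclic quotient. -/
theorem mldI_cyc (hq : IsQuot EZ E G) [Finite G] {z : Pt Z} {x : Pt X}
    (hxz : LiesOver x z) {r : ℕ} (I : Fin r → Ideal Z.R) (c : Fin r → ℝ) {m : ℝ} (hm0 : 0 ≤ m)
    (hm : IsMldI (EZ z) I c m) :
    ∃ σ ∈ G, FixesPt x σ ∧ ∀ {K1 : Type} [Field K1] [Algebra ℂ K1] [Algebra K1 K]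
      [IsScalarTower ℂ K1 K] {Z1 : AffVar K1} {B1 : EffDiv Z1} {E1 : ∀ z : Pt Z1, LocEq B1 z}
      (_ : IsQuot E1 E (Subgroup.zpowers σ)) {z1 : Pt Z1} (_ : LiesOver x z1)
      (I1 : Fin r → Ideal Z1.R)
      (_ : ∀ j, gen X.R (img (I j) : Set K) = gen X.R (img (I1 j) : Set K)),
      IsMldI (E1 z1) I1 c m := by
  obtain ⟨⟨v, hv, t0, k, ht0, hk, hmt⟩, hlow⟩ := hm
  obtain ⟨x1, w1, e, hx1, hw1, he, h1⟩ := hq.up hv
  obtain ⟨τ, hτ, hxx⟩ := hq.trans hxz hx1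
  have hw2 : IsOverGerm x (tw w1 τ) := IsQuot.over_tw' (hq.aut τ hτ) hxx hw1
  have h2 : ∀ f : K0, f ≠ 0 → (tw w1 τ).ord (algebraMap K0 K f) = e * v.ord f := by
    intro f hf
    change w1.ord (τ (algebraMap K0 K f)) = _
    rw [hq.inv τ hτ, h1 f hf]
  have hb := (hq.disc hxz hw2 hv he h2 t0).1 ht0
  obtain ⟨hr, σ, hσG, hI, hσr, hch⟩ := exists_gen G (tw w1 τ)
  refine ⟨σ, hσG, fixesPt_of_InI hw2 hI, ?_⟩
  intro K1 _ _ _ _ Z1 B1 E1 hq1 z1 hxz1 I1 hII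
  have hfin := zpowers_finite hσG
  have hregX : ∀ {w : DVal K}, IsOverGerm x w → ∀ s ∈ X.R, w.Reg s := by
    intro w hw s hs
    obtain ⟨⟨S, -, hS, hloc⟩, -⟩ := hw
    exact hloc.1 _ (hS hs)
  constructor
  · obtain ⟨v', e', hv', he', h'⟩ := hq1.down hxz1 hw2
    have hee : e' = e := by rw [hq1.ram h', card_zpowers hσG hI hch, ← hq.ram h2]
    subst hee
    refine ⟨v', hv', t0, k, (hq1.disc hxz1 hw2 hv' he' h' t0).2 hb, fun j => ?_, hmt⟩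
    rw [(ord_up he' (hregX hw2) h' (I1 j)).1, ← hII j, ← (ord_up he (hregX hw2) h2 (I j)).1]
    exact hk j
  · rintro a ⟨v', hv', t1, k1, ht1, hk1, rfl⟩
    obtain ⟨x', w', e1, hx', hw', he1, h1'⟩ := hq1.up hv'
    obtain ⟨τ', hτ', hxx'⟩ := hq1.trans hxz1 hx'
    have hw3 : IsOverGerm x (tw w' τ') := IsQuot.over_tw' (hq1.aut τ' hτ') hxx' hw'
    have h3 : ∀ f : K1, f ≠ 0 → (tw w' τ').ord (algebraMap K1 K f) = e1 * v'.ord f := by
      intro f hf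
      change w'.ord (τ' (algebraMap K1 K f)) = _
      rw [hq1.inv τ' hτ', h1' f hf]
    obtain ⟨v2, e2, hv2, he2, h4⟩ := hq.down hxz hw3
    -- the ramification indices
    have hle : (Subgroup.zpowers σ ⊓ Ig (tw w' τ') : Subgroup (K ≃ₐ[ℂ] K)) ≤
        G ⊓ Ig (tw w' τ') := inf_le_inf_right _ (Subgroup.zpowers_le.2 hσG)
    have hfin2 : Finite (G ⊓ Ig (tw w' τ') : Subgroup (K ≃ₐ[ℂ] K)) :=
      Set.Finite.subset (s := (G : Set (K ≃ₐ[ℂ] K))) (Set.toFinite _) fun x hx => hx.1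
    have hcard : e1 ≤ e2 := by
      rw [hq1.ram h3, hq.ram h4]
      exact Nat.le_of_dvd Nat.card_pos (Subgroup.card_dvd_of_le hle)
    have he1' : (0 : ℝ) < e1 := by exact_mod_cast he1
    have he2' : (0 : ℝ) < e2 := by exact_mod_cast he2
    have hcard' : (e1 : ℝ) ≤ e2 := by exact_mod_cast hcard
    -- the log discrepancies
    have hb1 := (hq1.disc hxz1 hw3 hv' he1 h3 t1).1 ht1
    have hb2 : Pool.Agent.W497.Mld.IsLogDisc (EZ z) v2 ((e1 / e2 : ℝ) * t1) := by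
      rw [hq.disc hxz hw3 hv2 he2 h4]
      have h5 : (e2 : ℝ) * ((e1 / e2 : ℝ) * t1) = e1 * t1 := by
        field_simp
      rw [h5]
      exact hb1
    -- the orders of the ideals
    have hord : ∀ j, ∃ k2 : ℤ, IsOrdI (I j) v2 k2 ∧ (e2 : ℝ) * k2 = e1 * k1 j := by
      intro j
      have h5 := ((ord_up he1 (hregX hw3) h3 (I1 j)).1 (k1 j)).1 (hk1 j)
      rw [← hII j] at h5
      obtain ⟨k2, hk2⟩ := (ord_up he2 (hregX hw3) h4 (I j)).2 _ h5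
      rw [hk2] at h5
      refine ⟨k2, ((ord_up he2 (hregX hw3) h4 (I j)).1 k2).2 h5, ?_⟩
      exact_mod_cast hk2.symm
    choose k2 hk2 hkk using hord
    have hle2 := hlow ⟨v2, hv2, _, k2, hb2, hk2, rfl⟩
    have h6 : (e1 / e2 : ℝ) * t1 - ∑ j, c j * (k2 j : ℝ) =
        (e1 / e2 : ℝ) * (t1 - ∑ j, c j * (k1 j : ℝ)) := by
      rw [mul_sub, Finset.mul_sum]
      congr 1
      refine Finset.sum_congr rfl fun j _ => ?_
      have h7 : (k2 j : ℝ) = (e1 / e2 : ℝ) * k1 j := by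
        have := hkk j
        field_simp
        linarith
      rw [h7]
      ring
    rw [h6] at hle2
    have hq0 : (0 : ℝ) < e1 / e2 := div_pos he1' he2'
    have hq1' : (e1 / e2 : ℝ) ≤ 1 := (div_le_one he2').2 hcard'
    have h8 : 0 ≤ t1 - ∑ j, c j * (k1 j : ℝ) := by
      by_contra hneg
      push Not at hneg
      have := mul_neg_of_pos_of_neg hq0 hneg
      linarith
    nlinarith

/-- Nonzero ideals generate nonzero ideals. -/
theorem ne_bot_of_gen {K1 : Type} [Field K1] [Algebra ℂ K1] [Algebra K1 K] {Z1 : AffVar K1}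
    {S : Subalgebra ℂ K} {I : Ideal Z.R} {I1 : Ideal Z1.R} (hI : I ≠ ⊥)
    (h : gen S (img I : Set K) = gen S (img I1 : Set K)) : I1 ≠ ⊥ := by
  rintro rfl
  obtain ⟨f, hf, hf0⟩ := Submodule.exists_mem_ne_zero_of_ne_bot hI
  have h1 : algebraMap K0 K (f : K0) ∈ gen S (img I : Set K) :=
    Submodule.subset_span ⟨f, hf, rfl⟩
  rw [h] at h1
  have h2 : (img (⊥ : Ideal Z1.R) : Set K) ⊆ {0} := by
    rintro _ ⟨g, hg, rfl⟩
    have hg0 : g = 0 := hg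
    subst hg0
    change algebraMap K1 K ((0 : Z1.R) : K1) = 0
    rw [ZeroMemClass.coe_zero, map_zero]
  have h3 : algebraMap K0 K (f : K0) ∈ Submodule.span S ({0} : Set K) :=
    Submodule.span_mono h2 h1
  rw [Submodule.span_zero_singleton, Submodule.mem_bot, map_eq_zero] at h3
  exact hf0 (Subtype.ext h3)

end general

theorem chart_mem {n : ℕ} {Γ : Set ℝ} {G : Germ} {r : ℕ} (a : RIdeal G r) (h : HasChart n Γ a)
    (ha : a.In Γ) {m : ℝ} (hm0 : 0 ≤ m) (hm : a.IsMld m) : ∃ d ≤ n, ∃ r, m ∈ mldsR d r Γ := by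
  obtain ⟨t, C, hB, hor⟩ := h
  refine comp_mem C a hB ha hm0 hm ?_
  rcases hor with hor | hor
  · exact comp_of_nondeg C a hor.1 hor.2 hm0 hm
  · exact hor m hm0 hm

theorem same_ne_bot {G H : Germ} (C : EtChart G H) {r : ℕ} {a : RIdeal G r} {b : RIdeal H r}
    (h : Same C a b) {Γ : Set ℝ} (ha : a.In Γ) : b.In Γ := fun j =>
  ⟨ne_bot_of_gen (S := C.S) (ha j).1 (h.2 j), by rw [← h.1]; exact (ha j).2⟩

theorem chartQuot_mem {n : ℕ} {Γ : Set ℝ} {m : ℝ} (h : m ∈ chartQuotMlds n Γ) :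
    ∃ d ≤ n, ∃ r, m ∈ mldsR d r Γ := by
  obtain ⟨hm0, H, r, a, ha, hT, hm⟩ := h
  obtain ⟨Z, X, G, q, z, x, C, b, hfin, hxz, hab, hx⟩ := hT
  have hmz : IsMldI (Z.E z) b.I b.c m := (inv_mld C a b hab m).1 hm
  have hb : b.In Γ := same_ne_bot C hab ha
  let _ := q.alg
  let _ := q.tow
  obtain ⟨σ, hσ, hf, hcyc⟩ := mldI_cyc q.quot hxz b.I b.c hm0 hmz
  obtain ⟨Z1, q1, z1, b1, hxz1, hc1, hI1, hch⟩ := hx σ hσ hf
  let _ := q1.alg
  let _ := q1.tow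
  have hm1 : IsMldI (Z1.E z1) b1.I b.c m := hcyc q1.quot hxz1 b1.I fun j => (hI1 j).symm
  rw [← hc1] at hm1
  have hb1 : b1.In Γ := fun j =>
    ⟨ne_bot_of_gen (Z := Z.X) (Z1 := Z1.X) (S := X.X.R) (hb j).1 (hI1 j).symm,
      by rw [hc1]; exact (hb j).2⟩
  exact chart_mem b1 hch hb1 hm0 hm1

theorem chartQuot_acc (n : ℕ) {Γ : Set ℝ} (hΓ : Pool.Agent.TH165.ACC.IsDCC Γ) :
    Pool.Agent.TH165.ACC.IsACC (chartQuotMlds n Γ) := fun u hu hmem =>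
  acc_union (N := n) (S := fun d => {a | ∃ r, a ∈ mldsR d r Γ}) (fun _ _ => acc hΓ) u hu
    fun k => chartQuot_mem (hmem k)

end Pool.Agent.Run7.h271.ML
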