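import Pool.Agent.Run7.h271.ML.Et

/-!
# Expansions of functions in étale toric coordinates: the first order
-/

set_option autoImplicit false
set_option linter.unusedSectionVars false

namespace Pool.Agent.Run7.h271.ML

open Pool.Agent.H436R3.Fol Pool.Agent.H436R3.KT Pool.Agent.W497.Mld Pool.Agent.Helper58K9.ET
  Pool.Agent.TH165.ACC

variable {n : ℕ} {M L : Type} [Field M] [Algebra ℂ M]
  [Algebra (MvPolynomial (Fin n) ℂ) M] [IsFractionRing (MvPolynomial (Fin n) ℂ) M]
  [IsScalarTower ℂ (MvPolynomial (Fin n) ℂ) M] [Field L] [Algebra ℂ L] [Algebra M L]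
  [IsScalarTower ℂ M L]

/-- sums of `N` nonzero exponent vectors in the dual cone and one further vector in it -/
def CN (g : ToricGerm n M) : ℕ → Set (Fin n → ℤ)
  | 0 => Cn g.E
  | N + 1 => {m | ∃ m1 ∈ CN g N, ∃ m2 ∈ Cn g.E, m2 ≠ 0 ∧ m = m1 + m2}

theorem CN_sub (g : ToricGerm n M) : ∀ N, CN g N ⊆ Cn g.E := by
  intro N
  induction N with
  | zero => exact fun m hm => hm
  | succ N ih =>
    rintro _ ⟨m1, h1, m2, h2, -, rfl⟩
    exact Cn_add (ih h1) h2

theorem CN_add (g : ToricGerm n M) : ∀ N m m', m ∈ CN g N → m' ∈ Cn g.E → m + m' ∈ CN g N := by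
  intro N
  induction N with
  | zero => exact fun m m' hm hm' => Cn_add hm hm'
  | succ N ih =>
    rintro _ m' ⟨m1, h1, m2, h2, h3, rfl⟩ hm'
    exact ⟨m1 + m', ih _ _ h1 hm', m2, h2, h3, by abel⟩

theorem CN_one (g : ToricGerm n M) {m : Fin n → ℤ} (hm : m ∈ Cn g.E) (h0 : m ≠ 0) : m ∈ CN g 1 :=
  ⟨0, Cn_zero, m, hm, h0, (zero_add m).symm⟩

theorem CN_mul (g : ToricGerm n M) {N : ℕ} {m m' : Fin n → ℤ} (h : m ∈ CN g 1) (h' : m' ∈ CN g N) :
    m + m' ∈ CN g (N + 1) := by
  obtain ⟨m1, h1, m2, h2, h3, rfl⟩ := h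
  exact ⟨m' + m1, CN_add g N _ _ h' h1, m2, h2, h3, by abel⟩

/-- the monomials in `L` -/
noncomputable def yl (L : Type) [Field L] [Algebra M L] (m : Fin n → ℤ) : L :=
  algebraMap M L (ym M m)

theorem yl_add (m m' : Fin n → ℤ) : yl (M := M) L (m + m') = yl (M := M) L m * yl (M := M) L m' := by
  rw [yl, ym_add, map_mul]; rfl

theorem yl_zero : yl (M := M) L (0 : Fin n → ℤ) = 1 := by rw [yl, ym_zero, map_one]

/-- the powers of the maximal ideal of the germ, in `S` -/
noncomputable def J (g : ToricGerm n M) (S : Subalgebra ℂ L) (N : ℕ) : Submodule S L :=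
  Submodule.span S (yl (M := M) L '' CN g N)

theorem yl_mem {g : ToricGerm n M} {S : Subalgebra ℂ L} {N : ℕ} {m : Fin n → ℤ}
    (hm : m ∈ CN g N) : yl (M := M) L m ∈ J g S N := Submodule.subset_span ⟨m, hm, rfl⟩

theorem J_mul {g : ToricGerm n M} {S : Subalgebra ℂ L} {N : ℕ} {x z : L} (hx : x ∈ J g S 1)
    (hz : z ∈ J g S N) : x * z ∈ J g S (N + 1) := by
  induction hx using Submodule.span_induction with
  | mem x hx =>
    obtain ⟨m, hm, rfl⟩ := hx
    induction hz using Submodule.span_induction with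
    | mem z hz =>
      obtain ⟨m', hm', rfl⟩ := hz
      rw [← yl_add]
      exact yl_mem (CN_mul g hm hm')
    | zero => rw [mul_zero]; exact Submodule.zero_mem _
    | add a b _ _ ha hb => rw [mul_add]; exact Submodule.add_mem _ ha hb
    | smul s a _ ha => rw [mul_smul_comm]; exact Submodule.smul_mem _ s ha
  | zero => rw [zero_mul]; exact Submodule.zero_mem _
  | add a b _ _ ha hb => rw [add_mul]; exact Submodule.add_mem _ ha hb
  | smul s a _ ha => rw [smul_mul_assoc]; exact Submodule.smul_mem _ s ha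

theorem smul_mem' {g : ToricGerm n M} {S : Subalgebra ℂ L} {N : ℕ} {s z : L} (hs : s ∈ S)
    (hz : z ∈ J g S N) : s * z ∈ J g S N := by
  have h := Submodule.smul_mem (J g S N) (⟨s, hs⟩ : S) hz
  rwa [Algebra.smul_def] at h

section one

variable (g : ToricGerm n M) (S : Subalgebra ℂ L) (y : S →ₐ[ℂ] ℂ)

/-- `f ∈ S`, and `f - f (y)` lies in the ideal generated by the maximal ideal of the germ, near `y` -/
def Q1 (f : L) : Prop :=
  ∃ (hf : f ∈ S) (b : S), y b ≠ 0 ∧ (b : L) * (f - algebraMap ℂ L (y ⟨f, hf⟩)) ∈ J g S 1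

variable {g S y}

theorem Q1.add {f f' : L} (h : Q1 g S y f) (h' : Q1 g S y f') : Q1 g S y (f + f') := by
  obtain ⟨hf, b, hb, h1⟩ := h
  obtain ⟨hf', b', hb', h1'⟩ := h'
  refine ⟨add_mem hf hf', b * b', by rw [map_mul]; exact mul_ne_zero hb hb', ?_⟩
  have e : y ⟨f + f', add_mem hf hf'⟩ = y ⟨f, hf⟩ + y ⟨f', hf'⟩ := by rw [← map_add]; rfl
  rw [e, map_add]
  have e2 : ((b * b' : S) : L) * (f + f' - (algebraMap ℂ L (y ⟨f, hf⟩) + algebraMap ℂ L (y ⟨f', hf'⟩))) =
      (b' : L) * ((b : L) * (f - algebraMap ℂ L (y ⟨f, hf⟩))) +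
        (b : L) * ((b' : L) * (f' - algebraMap ℂ L (y ⟨f', hf'⟩))) := by
    push_cast
    ring
  rw [e2]
  exact Submodule.add_mem _ (smul_mem' b'.2 h1) (smul_mem' b.2 h1')

theorem Q1.mul {f f' : L} (h : Q1 g S y f) (h' : Q1 g S y f') : Q1 g S y (f * f') := by
  obtain ⟨hf, b, hb, h1⟩ := h
  obtain ⟨hf', b', hb', h1'⟩ := h'
  refine ⟨mul_mem hf hf', b * b', by rw [map_mul]; exact mul_ne_zero hb hb', ?_⟩
  have e : y ⟨f * f', mul_mem hf hf'⟩ = y ⟨f, hf⟩ * y ⟨f', hf'⟩ := by rw [← map_mul]; rfl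
  rw [e, map_mul]
  have e2 : ((b * b' : S) : L) * (f * f' - (algebraMap ℂ L (y ⟨f, hf⟩) * algebraMap ℂ L (y ⟨f', hf'⟩))) =
      (b' * f' : L) * ((b : L) * (f - algebraMap ℂ L (y ⟨f, hf⟩))) +
        (b * algebraMap ℂ L (y ⟨f, hf⟩) : L) * ((b' : L) * (f' - algebraMap ℂ L (y ⟨f', hf'⟩))) := by
    push_cast
    ring
  rw [e2]
  exact Submodule.add_mem _ (smul_mem' (mul_mem b'.2 hf') h1)
    (smul_mem' (mul_mem b.2 (Subalgebra.algebraMap_mem _ _)) h1')

theorem Q1.inv {f : L} (h : Q1 g S y f) (hi : f⁻¹ ∈ S) (hf0 : f ≠ 0) : Q1 g S y f⁻¹ := by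
  obtain ⟨hf, b, hb, h1⟩ := h
  have e : y ⟨f, hf⟩ * y ⟨f⁻¹, hi⟩ = 1 := by
    rw [← map_mul]
    have : (⟨f, hf⟩ * ⟨f⁻¹, hi⟩ : S) = 1 := Subtype.ext (mul_inv_cancel₀ hf0)
    rw [this, map_one]
  have hne : y ⟨f, hf⟩ ≠ 0 := left_ne_zero_of_mul_eq_one e
  refine ⟨hi, b, hb, ?_⟩
  have e1 : y ⟨f⁻¹, hi⟩ = (y ⟨f, hf⟩)⁻¹ := eq_inv_of_mul_eq_one_right e
  have hne' : algebraMap ℂ L (y ⟨f, hf⟩) ≠ 0 := (map_ne_zero _).2 hne
  have e2 : (b : L) * (f⁻¹ - algebraMap ℂ L (y ⟨f⁻¹, hi⟩)) =
      (-(f⁻¹) * algebraMap ℂ L (y ⟨f, hf⟩)⁻¹) * ((b : L) * (f - algebraMap ℂ L (y ⟨f, hf⟩))) := by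
    rw [e1, map_inv₀]
    field_simp
    ring
  rw [e2]
  exact smul_mem' (mul_mem (neg_mem hi) (Subalgebra.algebraMap_mem _ _)) h1

end one

section et

variable {g : ToricGerm n M} {S : Subalgebra ℂ L} {y : S →ₐ[ℂ] ℂ} (h' : Etale g.X S)
  (hP : h'.im y = g.P)

include hP in
theorem Q1_R {r : M} (hr : r ∈ g.X.R) : Q1 g S y (algebraMap M L r) := by
  have key : ∀ r : M, r ∈ Submodule.span ℂ (ym M '' Cn g.E) → ∀ hr : r ∈ g.X.R,
      algebraMap M L r - algebraMap ℂ L (g.P ⟨r, hr⟩) ∈ J g S 1 := by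
    have hmem : ∀ r, r ∈ Submodule.span ℂ (ym M '' Cn g.E) → r ∈ g.X.R := by
      intro r hr
      rw [← g.span_eq] at hr
      exact hr
    intro r hr
    induction hr using Submodule.span_induction with
    | mem x hx =>
      obtain ⟨m, hm, rfl⟩ := hx
      intro hr'
      by_cases h0 : m = 0
      · subst h0
        have h2 : (⟨ym M 0, hr'⟩ : g.X.R) = 1 := Subtype.ext ym_zero
        rw [h2, map_one, map_one, ym_zero, map_one, sub_self]
        exact Submodule.zero_mem _
      · rw [g.hP _ m hm h0 rfl, map_zero, sub_zero]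
        exact yl_mem (CN_one g hm h0)
    | zero =>
      intro hr'
      have h2 : (⟨0, hr'⟩ : g.X.R) = 0 := rfl
      rw [h2, map_zero, map_zero, map_zero, sub_self]
      exact Submodule.zero_mem _
    | add a b ha hb iha ihb =>
      intro hab
      have h2 : (⟨a + b, hab⟩ : g.X.R) = ⟨a, hmem a ha⟩ + ⟨b, hmem b hb⟩ := rfl
      rw [h2, map_add, map_add, map_add]
      have := Submodule.add_mem _ (iha (hmem a ha)) (ihb (hmem b hb))
      convert this using 1
      ring
    | smul c a ha iha =>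
      intro hca
      have h2 : (⟨c • a, hca⟩ : g.X.R) = c • ⟨a, hmem a ha⟩ := rfl
      have h3 : algebraMap M L (c • a) = algebraMap ℂ L c * algebraMap M L a := by
        rw [Algebra.smul_def, map_mul, ← IsScalarTower.algebraMap_apply]
      have h4 : g.P (c • ⟨a, hmem a ha⟩) = c * g.P ⟨a, hmem a ha⟩ := by
        rw [map_smul, smul_eq_mul]
      rw [h2, h3, h4, map_mul]
      have := smul_mem' (g := g) (S := S) (N := 1) (Subalgebra.algebraMap_mem S c) (iha (hmem a ha))
      convert this using 1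
      ring
  refine ⟨h'.map_mem hr, 1, by rw [map_one]; exact one_ne_zero, ?_⟩
  have e : y ⟨algebraMap M L r, h'.map_mem hr⟩ = g.P ⟨r, hr⟩ := by
    rw [← hP]
    rfl
  rw [e, OneMemClass.coe_one, one_mul]
  refine key r ?_ hr
  rw [← g.span_eq]
  exact hr

/-- `t` lies in `S` -/
theorem t_mem (h' : Etale g.X S) : h'.t ∈ S :=
  (SetLike.ext_iff.1 h'.hS _).2 (Algebra.subset_adjoin (Or.inr (Or.inl rfl)))

/-- evaluation of polynomials at `t` -/
noncomputable def ev (h' : Etale g.X S) : Polynomial g.X.R →+* S :=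
  Polynomial.eval₂RingHom (h'.inc : g.X.R →+* S) ⟨h'.t, t_mem h'⟩

theorem ev_coe (A : Polynomial g.X.R) : ((ev h' A : S) : L) =
    Polynomial.aeval h'.t (A.map (g.X.R.val : g.X.R →+* M)) := by
  have h1 := Polynomial.hom_eval₂ A (h'.inc : g.X.R →+* S) (S.val : S →+* L) ⟨h'.t, t_mem h'⟩
  rw [Polynomial.aeval_def, Polynomial.eval₂_map]
  exact h1

theorem lift_pol {p : Polynomial M} (hp : ∀ i, p.coeff i ∈ g.X.R) :
    ∃ A : Polynomial g.X.R, A.map (g.X.R.val : g.X.R →+* M) = p := by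
  have h1 : p ∈ Polynomial.lifts (g.X.R.val : g.X.R →+* M) := by
    rw [Polynomial.lifts_iff_coeff_lifts]
    intro i
    exact ⟨⟨p.coeff i, hp i⟩, rfl⟩
  obtain ⟨A, hA⟩ := (Polynomial.mem_lifts p).1 h1
  exact ⟨A, hA⟩

include hP in
theorem Q1_t : Q1 g S y h'.t := by
  obtain ⟨P, hPp⟩ := lift_pol (g := g) h'.mem
  have hev0 : ev h' P = 0 := by
    apply Subtype.ext
    rw [ev_coe, hPp, minpoly.aeval]
    rfl
  set tS : S := ⟨h'.t, t_mem h'⟩ with htS
  set c : ℂ := y tS with hc
  set cR : g.X.R := algebraMap ℂ g.X.R c with hcR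
  set G : Polynomial g.X.R := P /ₘ (Polynomial.X - Polynomial.C cR) with hG
  have hdiv : P = (Polynomial.X - Polynomial.C cR) * G + Polynomial.C (P.eval cR) := by
    have h := Polynomial.modByMonic_add_div P (Polynomial.X - Polynomial.C cR)
    rw [Polynomial.modByMonic_X_sub_C_eq_C_eval] at h
    rw [add_comm]
    exact h.symm
  have hX : ev h' Polynomial.X = tS := by simp [ev, htS]
  have hC : ∀ r, ev h' (Polynomial.C r) = h'.inc r := by intro r; simp [ev]
  have hincc : h'.inc cR = algebraMap ℂ S c := by rw [hcR]; exact AlgHom.commutes _ _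
  have e1 : (tS - algebraMap ℂ S c) * ev h' G = -h'.inc (P.eval cR) := by
    have h := congrArg (ev h') hdiv
    rw [hev0, map_add, map_mul, map_sub, hX, hC, hC, hincc] at h
    exact eq_neg_of_add_eq_zero_left h.symm
  have hyc : y (algebraMap ℂ S c) = c := AlgHom.commutes _ _
  have e2 : g.P (P.eval cR) = 0 := by
    have h := congrArg y e1
    rw [map_mul, map_sub, ← hc, hyc, sub_self, zero_mul, map_neg] at h
    have h3 : y (h'.inc (P.eval cR)) = g.P (P.eval cR) := by rw [← hP]; rfl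
    rw [h3] at h
    exact neg_eq_zero.1 h.symm
  -- the value of `G (t)` at `y` is the value of `p' (t)`
  have e3 : ev h' (Polynomial.derivative P) = ev h' G +
      (tS - algebraMap ℂ S c) * ev h' (Polynomial.derivative G) := by
    have h := congrArg (fun q => ev h' (Polynomial.derivative q)) hdiv
    beta_reduce at h
    rw [h, Polynomial.derivative_add, Polynomial.derivative_mul, Polynomial.derivative_sub,
      Polynomial.derivative_X, Polynomial.derivative_C, Polynomial.derivative_C, sub_zero, one_mul,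
      add_zero, map_add, map_mul, map_sub, hX, hC, hincc]
  have e4 : y (ev h' G) = y (ev h' (Polynomial.derivative P)) := by
    rw [e3, map_add, map_mul, map_sub, ← hc, hyc, sub_self, zero_mul, add_zero]
  have e5 : y (ev h' (Polynomial.derivative P)) ≠ 0 := by
    have h1 : ((ev h' (Polynomial.derivative P) : S) : L) =
        Polynomial.aeval h'.t (Polynomial.derivative (minpoly M h'.t)) := by
      rw [ev_coe, ← Polynomial.derivative_map, hPp]
    have h2 : Polynomial.aeval h'.t (Polynomial.derivative (minpoly M h'.t)) ≠ 0 := by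
      have : CharZero M := charZero_of_injective_algebraMap (algebraMap ℂ M).injective
      exact (minpoly.irreducible h'.int).separable.aeval_derivative_ne_zero (minpoly.aeval _ _)
    have h3 : ev h' (Polynomial.derivative P) * ⟨_, h'.unit⟩ = 1 := by
      apply Subtype.ext
      change ((ev h' (Polynomial.derivative P) : S) : L) * _ = 1
      rw [h1, mul_inv_cancel₀ h2]
    have h4 := congrArg y h3
    rw [map_mul, map_one] at h4
    exact left_ne_zero_of_mul_eq_one h4
  obtain ⟨hr, b, hb, h1⟩ := Q1_R h' hP (P.eval cR).2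
  have e6 : y ⟨algebraMap M L ((P.eval cR : g.X.R) : M), hr⟩ = 0 := by
    have : y ⟨algebraMap M L ((P.eval cR : g.X.R) : M), hr⟩ = g.P (P.eval cR) := by rw [← hP]; rfl
    rw [this, e2]
  rw [e6, map_zero, sub_zero] at h1
  refine ⟨t_mem h', b * ev h' G, by rw [map_mul, e4]; exact mul_ne_zero hb e5, ?_⟩
  have e7 : ((b * ev h' G : S) : L) * (h'.t - algebraMap ℂ L (y ⟨h'.t, t_mem h'⟩)) =
      (-1) * ((b : L) * algebraMap M L ((P.eval cR : g.X.R) : M)) := by
    have e8 := congrArg (fun q : S => (q : L)) e1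
    have e9 : ((h'.inc (P.eval cR) : S) : L) = algebraMap M L ((P.eval cR : g.X.R) : M) := rfl
    have e10 : ((algebraMap ℂ S c : S) : L) = algebraMap ℂ L c := rfl
    simp only [MulMemClass.coe_mul, AddSubgroupClass.coe_sub, NegMemClass.coe_neg, e9, e10] at e8
    push_cast
    calc (b : L) * (ev h' G : L) * (h'.t - algebraMap ℂ L c)
        = b * ((h'.t - algebraMap ℂ L c) * (ev h' G : L)) := by ring
      _ = _ := by rw [e8]; ring
  rw [e7]
  exact smul_mem' (neg_mem (one_mem _)) h1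

include hP in
/-- all functions in `S` -/
theorem Q1_all {f : L} (hf : f ∈ S) : Q1 g S y f := by
  have hpol : ∀ A : Polynomial g.X.R, Q1 g S y ((ev h' A : S) : L) := by
    intro A
    induction A using Polynomial.induction_on' with
    | add p q hp hq =>
      have e : ((ev h' (p + q) : S) : L) = ((ev h' p : S) : L) + ((ev h' q : S) : L) := by
        rw [map_add]; rfl
      rw [e]
      exact hp.add hq
    | monomial k a =>
      have e : ((ev h' (Polynomial.monomial k a) : S) : L) = algebraMap M L (a : M) * h'.t ^ k := by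
        rw [ev_coe, Polynomial.map_monomial, Polynomial.aeval_monomial]
        rfl
      rw [e]
      refine (Q1_R h' hP a.2).mul ?_
      induction k with
      | zero =>
        rw [pow_zero]
        have h1 := Q1_R h' hP (one_mem g.X.R)
        rwa [map_one] at h1
      | succ k ih =>
        rw [pow_succ]
        refine ih ?_ |>.mul (Q1_t h' hP)
        rw [ev_coe, Polynomial.map_monomial, Polynomial.aeval_monomial]
        rfl
  have h1 := (SetLike.ext_iff.1 h'.hS f).1 hf
  induction h1 using Algebra.adjoin_induction with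
  | mem x hx =>
    rcases hx with ⟨r, hr, rfl⟩ | rfl | hx
    · exact Q1_R h' hP hr
    · exact Q1_t h' hP
    · rw [Set.mem_singleton_iff] at hx
      subst hx
      obtain ⟨A, hA⟩ := lift_pol (g := g) h'.smem
      have h2 := hpol A
      rw [ev_coe, hA] at h2
      exact h2.inv hf h'.sne
  | algebraMap c =>
    have h2 := Q1_R h' hP (Subalgebra.algebraMap_mem g.X.R c)
    rwa [← IsScalarTower.algebraMap_apply] at h2
  | add a b ha hb iha ihb =>
    exact (iha ((SetLike.ext_iff.1 h'.hS a).2 ha)).add (ihb ((SetLike.ext_iff.1 h'.hS b).2 hb))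
  | mul a b ha hb iha ihb =>
    exact (iha ((SetLike.ext_iff.1 h'.hS a).2 ha)).mul (ihb ((SetLike.ext_iff.1 h'.hS b).2 hb))

end et

end Pool.Agent.Run7.h271.ML
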