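import Pool.Agent.Run7.h271.ML.Tay

/-!
# Expansions of functions in étale toric coordinates
-/

set_option autoImplicit false
set_option linter.unusedSectionVars false

namespace Pool.Agent.Run7.h271.ML

open Pool.Agent.H436R3.Fol Pool.Agent.H436R3.KT Pool.Agent.W497.Mld Pool.Agent.Helper58K9.ET
  Pool.Agent.TH165.ACC

variable {n : ℕ} {M L : Type} [Field M] [Algebra ℂ M]
  [Algebra (MvPolynomial (Fin n) ℂ) M] [IsFractionRing (MvPolynomial (Fin n) ℂ) M]
  [IsScalarTower ℂ (MvPolynomial (Fin n) ℂ) M] [Field L] [Algebra ℂ L] [Algebra M L]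
  [IsScalarTower ℂ M L]

/-- Laurent polynomials in `L` -/
noncomputable def lin (M L : Type) [Field M] [Algebra ℂ M] [Algebra (MvPolynomial (Fin n) ℂ) M]
    [IsFractionRing (MvPolynomial (Fin n) ℂ) M] [IsScalarTower ℂ (MvPolynomial (Fin n) ℂ) M]
    [Field L] [Algebra ℂ L] [Algebra M L] (P : (Fin n → ℤ) →₀ ℂ) : L :=
  P.sum fun m c => algebraMap ℂ L c * yl (M := M) L m

theorem lin_add (P P' : (Fin n → ℤ) →₀ ℂ) : lin M L (P + P') = lin M L P + lin M L P' := by
  classical
  refine Finsupp.sum_add_index' (fun m => by rw [map_zero, zero_mul]) fun m a b => ?_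
  rw [map_add, add_mul]

theorem lin_single (m : Fin n → ℤ) (c : ℂ) :
    lin M L (Finsupp.single m c) = algebraMap ℂ L c * yl (M := M) L m :=
  Finsupp.sum_single_index (by rw [map_zero, zero_mul])

theorem lin_smul (c : ℂ) (P : (Fin n → ℤ) →₀ ℂ) :
    lin M L (c • P) = algebraMap ℂ L c * lin M L P := by
  induction P using Finsupp.induction_linear with
  | zero => rw [smul_zero]; simp [lin]
  | add f g hf hg => rw [smul_add, lin_add, lin_add, hf, hg, mul_add]
  | single m a =>
    rw [Finsupp.smul_single, lin_single, lin_single, smul_eq_mul, map_mul]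
    ring

theorem lin_zero : lin M L (0 : (Fin n → ℤ) →₀ ℂ) = 0 := Finsupp.sum_zero_index

/-- the exponents of `P` lie in `C` -/
def SuppIn (C : Set (Fin n → ℤ)) (P : (Fin n → ℤ) →₀ ℂ) : Prop := ∀ m ∈ P.support, m ∈ C

theorem SuppIn.add {C : Set (Fin n → ℤ)} {P P' : (Fin n → ℤ) →₀ ℂ} (h : SuppIn C P)
    (h' : SuppIn C P') : SuppIn C (P + P') := by
  classical
  intro m hm
  rcases Finset.mem_union.1 (Finsupp.support_add hm) with h1 | h1
  · exact h m h1
  · exact h' m h1

theorem SuppIn.smul {C : Set (Fin n → ℤ)} {P : (Fin n → ℤ) →₀ ℂ} (h : SuppIn C P) (c : ℂ) :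
    SuppIn C (c • P) := fun m hm => h m (Finsupp.support_smul hm)

section ap

variable {g : ToricGerm n M} {S : Subalgebra ℂ L} {y : S →ₐ[ℂ] ℂ} {h' : Etale g.X S}
  (hP : h'.im y = g.P)

theorem lin_mem {N : ℕ} {P : (Fin n → ℤ) →₀ ℂ} (h : SuppIn (CN g N) P) : lin M L P ∈ J g S N := by
  refine Submodule.sum_mem _ fun m hm => ?_
  exact smul_mem' (Subalgebra.algebraMap_mem _ _) (yl_mem (h m hm))

include hP in
/-- elements of `S` which vanish at `y` -/
theorem van {s : S} (hs : y s = 0) : ∃ b : S, y b ≠ 0 ∧ (b : L) * s ∈ J g S 1 := by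
  obtain ⟨hf, b, hb, h1⟩ := Q1_all h' hP s.2
  have e : y ⟨(s : L), hf⟩ = 0 := hs
  rw [e, map_zero, sub_zero] at h1
  exact ⟨b, hb, h1⟩

include hP in
/-- the leading part of an element of `J N` -/
theorem lead_part {N : ℕ} {j : L} (hj : j ∈ J g S N) : ∃ (P : (Fin n → ℤ) →₀ ℂ) (b : S),
    SuppIn (CN g N) P ∧ y b ≠ 0 ∧ (b : L) * (j - lin M L P) ∈ J g S (N + 1) := by
  induction hj using Submodule.span_induction with
  | mem x hx =>
    obtain ⟨m, hm, rfl⟩ := hx
    refine ⟨Finsupp.single m 1, 1, ?_, by rw [map_one]; exact one_ne_zero, ?_⟩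
    · intro m' hm'
      rw [Finsupp.support_single _ one_ne_zero, Finset.mem_singleton] at hm'
      rw [hm']
      exact hm
    · rw [lin_single, map_one, one_mul, sub_self, mul_zero]
      exact Submodule.zero_mem _
  | zero =>
    refine ⟨0, 1, fun m hm => by simp at hm, by rw [map_one]; exact one_ne_zero, ?_⟩
    rw [lin_zero, sub_zero, mul_zero]
    exact Submodule.zero_mem _
  | add a c _ _ iha ihc =>
    obtain ⟨P, b, h1, h2, h3⟩ := iha
    obtain ⟨P', b', h1', h2', h3'⟩ := ihc
    refine ⟨P + P', b * b', h1.add h1', by rw [map_mul]; exact mul_ne_zero h2 h2', ?_⟩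
    have e : ((b * b' : S) : L) * (a + c - lin M L (P + P')) =
        (b' : L) * ((b : L) * (a - lin M L P)) + (b : L) * ((b' : L) * (c - lin M L P')) := by
      rw [lin_add]
      push_cast
      ring
    rw [e]
    exact Submodule.add_mem _ (smul_mem' b'.2 h3) (smul_mem' b.2 h3')
  | smul s a _ iha =>
    obtain ⟨P, b, h1, h2, h3⟩ := iha
    obtain ⟨b', hb', h4⟩ := van (g := g) hP (s := s - algebraMap ℂ S (y s)) (by
      rw [map_sub, AlgHom.commutes]
      exact sub_self _)
    refine ⟨y s • P, b * b', h1.smul _, by rw [map_mul]; exact mul_ne_zero h2 hb', ?_⟩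
    have e : ((b * b' : S) : L) * (s • a - lin M L (y s • P)) =
        ((b' : L) * s) * ((b : L) * (a - lin M L P)) +
          (b : L) * (((b' : L) * ((s - algebraMap ℂ S (y s) : S) : L)) * lin M L P) := by
      have e1 : ((algebraMap ℂ S (y s) : S) : L) = algebraMap ℂ L (y s) := rfl
      have e2 : algebraMap S L s = (s : L) := rfl
      rw [lin_smul, Algebra.smul_def, e2]
      simp only [MulMemClass.coe_mul, AddSubgroupClass.coe_sub, e1]
      ring
    rw [e]
    exact Submodule.add_mem _ (smul_mem' (mul_mem b'.2 s.2) h3)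
      (smul_mem' b.2 (J_mul h4 (lin_mem h1)))

variable (g S y) in
/-- `P` is an expansion of `s` modulo `J N` near `y` -/
def Appr (s : L) (N : ℕ) (P : (Fin n → ℤ) →₀ ℂ) : Prop :=
  SuppIn (Cn g.E) P ∧ ∃ b : S, y b ≠ 0 ∧ (b : L) * (s - lin M L P) ∈ J g S N

include hP in
theorem exists_appr {s : L} (hs : s ∈ S) : ∀ N, ∃ P, Appr g S y s N P := by
  intro N
  induction N with
  | zero =>
    refine ⟨0, fun m hm => by simp at hm, 1, by rw [map_one]; exact one_ne_zero, ?_⟩
    rw [lin_zero, sub_zero, OneMemClass.coe_one, one_mul]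
    have h1 : (1 : L) ∈ J g S 0 := by
      rw [← yl_zero (M := M) (n := n)]
      exact yl_mem Cn_zero
    have := smul_mem' hs h1
    rwa [mul_one] at this
  | succ N ih =>
    obtain ⟨P, hPs, b, hb, h1⟩ := ih
    -- divide by the value of `b`
    obtain ⟨b', hb', h2⟩ := van (g := g) hP (s := b - algebraMap ℂ S (y b)) (by
      rw [map_sub, AlgHom.commutes]
      exact sub_self _)
    obtain ⟨P', b'', h3, h4, h5⟩ := lead_part hP h1
    have hyb : algebraMap ℂ L (y b) ≠ 0 := (map_ne_zero _).2 hb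
    refine ⟨P + (y b)⁻¹ • P', hPs.add ?_, b * b' * b'', ?_, ?_⟩
    · exact SuppIn.smul (fun m hm => CN_sub g N (h3 m hm)) _
    · rw [map_mul, map_mul]
      exact mul_ne_zero (mul_ne_zero hb hb') h4
    · have e1 : ((algebraMap ℂ S (y b) : S) : L) = algebraMap ℂ L (y b) := rfl
      have e : ((b * b' * b'' : S) : L) * (s - lin M L (P + (y b)⁻¹ • P')) =
          ((b * b' : S) * algebraMap ℂ L (y b)⁻¹ : L) *
            ((b'' : L) * ((b : L) * (s - lin M L P) - lin M L P')) +
          (-(algebraMap ℂ L (y b)⁻¹) * b'' : L) *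
            (((b' : L) * ((b - algebraMap ℂ S (y b) : S) : L)) * ((b : L) * (s - lin M L P))) := by
        rw [lin_add, lin_smul, map_inv₀]
        simp only [MulMemClass.coe_mul, AddSubgroupClass.coe_sub, e1]
        field_simp
        ring
      rw [e]
      refine Submodule.add_mem _ (smul_mem' (mul_mem (b * b').2 (Subalgebra.algebraMap_mem _ _)) h5)
        (smul_mem' (mul_mem (neg_mem (Subalgebra.algebraMap_mem _ _)) b''.2) (J_mul h2 h1))

end ap

end Pool.Agent.Run7.h271.ML
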