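import Pool.Agent.Run7.h271.ML.Tay2

/-!
# Orders of functions at monomial valuations in étale toric coordinates
-/

set_option autoImplicit false
set_option linter.unusedSectionVars false

namespace Pool.Agent.Run7.h271.ML

open Pool.Agent.H436R3.Fol hiding ex
open Pool.Agent.H436R3.KT Pool.Agent.W497.Mld Pool.Agent.Helper58K9.ET
  Pool.Agent.TH165.ACC

variable {n : ℕ} {M L : Type} [Field M] [Algebra ℂ M]
  [Algebra (MvPolynomial (Fin n) ℂ) M] [IsFractionRing (MvPolynomial (Fin n) ℂ) M]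
  [IsScalarTower ℂ (MvPolynomial (Fin n) ℂ) M] [Field L] [Algebra ℂ L] [Algebra M L]
  [IsScalarTower ℂ M L]

/-- the order is at least `N` -/
def AtLeast (w : DVal L) (N : ℤ) (z : L) : Prop := z = 0 ∨ N ≤ w.ord z

theorem AtLeast.add {w : DVal L} {N : ℤ} {a c : L} (ha : AtLeast w N a) (hc : AtLeast w N c) :
    AtLeast w N (a + c) := by
  rcases ha with rfl | ha
  · rwa [zero_add]
  rcases hc with rfl | hc
  · rw [add_zero]; exact Or.inr ha
  by_cases h0 : a + c = 0
  · exact Or.inl h0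
  by_cases ha0 : a = 0
  · rw [ha0, zero_add]; exact Or.inr hc
  by_cases hc0 : c = 0
  · rw [hc0, add_zero]; exact Or.inr ha
  · exact Or.inr ((le_min ha hc).trans (w.map_add _ _ ha0 hc0 h0))

theorem AtLeast.mul {w : DVal L} {N : ℤ} {a c : L} (ha : w.Reg a) (hc : AtLeast w N c) :
    AtLeast w N (a * c) := by
  by_cases ha0 : a = 0
  · rw [ha0, zero_mul]; exact Or.inl rfl
  by_cases hc0 : c = 0
  · rw [hc0, mul_zero]; exact Or.inl rfl
  right
  rw [w.map_mul _ _ ha0 hc0]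
  have h1 := ha.resolve_left ha0
  have h2 := hc.resolve_left hc0
  omega

theorem AtLeast.neg {w : DVal L} {N : ℤ} {a : L} (ha : AtLeast w N a) : AtLeast w N (-a) := by
  by_cases ha0 : a = 0
  · rw [ha0, neg_zero]; exact Or.inl rfl
  · right
    rw [w.ord_neg ha0]
    exact ha.resolve_left ha0

theorem ord_add_eq {w : DVal L} {a c : L} (ha : a ≠ 0) (hc : AtLeast w (w.ord a + 1) c) :
    a + c ≠ 0 ∧ w.ord (a + c) = w.ord a := by
  rcases hc with rfl | hc
  · rw [add_zero]; exact ⟨ha, rfl⟩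
  by_cases hc0 : c = 0
  · rw [hc0, add_zero]; exact ⟨ha, rfl⟩
  have h0 : a + c ≠ 0 := by
    intro h
    have h1 : c = -a := by rw [eq_neg_iff_add_eq_zero, add_comm]; exact h
    rw [h1, w.ord_neg ha] at hc
    omega
  refine ⟨h0, ?_⟩
  have h1 := w.map_add a c ha hc0 h0
  have h2 := w.map_add (a + c) (-c) h0 (neg_ne_zero.2 hc0) (by rw [add_neg_cancel_right]; exact ha)
  rw [add_neg_cancel_right, w.ord_neg hc0] at h2
  rw [min_eq_left (by omega)] at h1
  rcases le_total (w.ord (a + c)) (w.ord c) with h3 | h3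
  · rw [min_eq_left h3] at h2
    omega
  · rw [min_eq_right h3] at h2
    omega

theorem Inter.ge {g : ToricGerm n M} {u : Fin n → ℤ} (hu : g.Inter u) :
    ∀ (N : ℕ) (m : Fin n → ℤ), m ∈ CN g N → (N : ℤ) ≤ pr m u := by
  intro N
  induction N with
  | zero => exact fun m hm => by exact_mod_cast hu.inCone m hm
  | succ N ih =>
    rintro _ ⟨m1, h1, m2, h2, h3, rfl⟩
    have h4 := ih m1 h1
    have h5 := hu m2 h2 h3
    rw [pr_add]
    push_cast
    omega

/-- the exponent vector `m + ex Q` -/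
noncomputable def sh (Q : Fin n →₀ ℕ) (m : Fin n → ℤ) : Fin n →₀ ℕ :=
  Finsupp.equivFunOnFinite.symm fun i => (m i + (Q i : ℤ)).toNat

theorem exists_shift (F : Finset (Fin n → ℤ)) : ∃ Q : Fin n →₀ ℕ, ∀ m ∈ F, ex (sh Q m) = m + ex Q := by
  classical
  refine ⟨Finsupp.equivFunOnFinite.symm fun i => ∑ m ∈ F, (m i).natAbs, fun m hm => ?_⟩
  funext i
  have h1 : (m i).natAbs ≤ ∑ m ∈ F, (m i).natAbs :=
    Finset.single_le_sum (f := fun m : Fin n → ℤ => (m i).natAbs) (fun _ _ => Nat.zero_le _) hm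
  have h2 : 0 ≤ m i + ((∑ m ∈ F, (m i).natAbs : ℕ) : ℤ) := by omega
  change (((m i + ((∑ m ∈ F, (m i).natAbs : ℕ) : ℤ)).toNat : ℕ) : ℤ) =
    m i + ((∑ m ∈ F, (m i).natAbs : ℕ) : ℤ)
  omega

theorem lin_ord {w : DVal L} {v : DVal M} (hv : IsMonomial n v)
    (hwv : ∀ f : M, f ≠ 0 → w.ord (algebraMap M L f) = v.ord f) {P : (Fin n → ℤ) →₀ ℂ}
    (hP : P ≠ 0) : lin M L P ≠ 0 ∧ (∃ m ∈ P.support, w.ord (lin M L P) = pr m (tv v)) ∧
      ∀ m ∈ P.support, w.ord (lin M L P) ≤ pr m (tv v) := by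
  classical
  obtain ⟨Q, hQ⟩ := exists_shift P.support
  set p : MvPolynomial (Fin n) ℂ := ∑ m ∈ P.support, MvPolynomial.monomial (sh Q m) (P m) with hp
  have hinj : ∀ m ∈ P.support, ∀ m' ∈ P.support, sh Q m = sh Q m' → m = m' := by
    intro m hm m' hm' h
    have h1 := hQ m hm
    rw [h, hQ m' hm'] at h1
    exact (add_right_cancel h1).symm
  have hcoef : ∀ m ∈ P.support, p.coeff (sh Q m) = P m := by
    intro m hm
    rw [hp, MvPolynomial.coeff_sum, Finset.sum_eq_single m]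
    · rw [MvPolynomial.coeff_monomial, if_pos rfl]
    · intro m' hm' hne
      rw [MvPolynomial.coeff_monomial, if_neg fun h => hne (hinj _ hm' _ hm h)]
    · intro h; exact absurd hm h
  have hsup : ∀ m ∈ P.support, sh Q m ∈ p.support := by
    intro m hm
    rw [MvPolynomial.mem_support_iff, hcoef m hm]
    exact Finsupp.mem_support_iff.1 hm
  have hsup' : ∀ s ∈ p.support, ∃ m ∈ P.support, s = sh Q m := by
    intro s hs
    by_contra hcon
    push Not at hcon
    rw [MvPolynomial.mem_support_iff] at hs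
    apply hs
    rw [hp, MvPolynomial.coeff_sum]
    refine Finset.sum_eq_zero fun m hm => ?_
    rw [MvPolynomial.coeff_monomial, if_neg fun h => hcon m hm h.symm]
  have hp0 : p ≠ 0 := by
    obtain ⟨m, hm⟩ : P.support.Nonempty := Finsupp.support_nonempty_iff.2 hP
    intro h
    have := hsup m hm
    rw [h] at this
    simp at this
  have key : lin M L P * yl (M := M) L (ex Q) = algebraMap M L (jo (Fin n) M p) := by
    rw [hp, map_sum, map_sum, lin, Finsupp.sum, Finset.sum_mul]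
    refine Finset.sum_congr rfl fun m hm => ?_
    rw [jo_monomial, hQ m hm, map_mul, ← IsScalarTower.algebraMap_apply, mul_assoc, ← yl_add]
    rfl
  have hj0 : jo (Fin n) M p ≠ 0 := jo_ne hp0
  have hj0' : algebraMap M L (jo (Fin n) M p) ≠ 0 := (map_ne_zero _).2 hj0
  have hl0 : lin M L P ≠ 0 := by
    intro h
    rw [h, zero_mul] at key
    exact hj0' key.symm
  have hy0 : yl (M := M) L (ex Q) ≠ 0 := (map_ne_zero _).2 (ym_ne _)
  have hord : w.ord (lin M L P) + pr (ex Q) (tv v) = v.ord (jo (Fin n) M p) := by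
    rw [← hwv _ hj0, ← key, w.map_mul _ _ hl0 hy0, yl, hwv _ (ym_ne _), ord_ym]
  obtain ⟨⟨s, hs, h1⟩, h2⟩ := hv p hp0
  refine ⟨hl0, ?_, ?_⟩
  · obtain ⟨m, hm, rfl⟩ := hsup' s hs
    refine ⟨m, hm, ?_⟩
    rw [hQ m hm, pr_add] at h1
    omega
  · intro m hm
    have h3 := h2 _ (hsup m hm)
    rw [hQ m hm, pr_add] at h3
    omega

/-- a divisor over `U ∋ y` which is monomial in the étale toric coordinates -/
structure Rl (g : ToricGerm n M) (S : Subalgebra ℂ L) (y : S →ₐ[ℂ] ℂ) (w : DVal L) (v : DVal M) :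
    Prop where
  ov : OverPt S y w
  mon : IsMonomial n v
  res : ∀ f : M, f ≠ 0 → w.ord (algebraMap M L f) = v.ord f
  inter : g.Inter (tv v)

section real

variable {g : ToricGerm n M} {S : Subalgebra ℂ L} {y : S →ₐ[ℂ] ℂ} {h' : Etale g.X S}
  {w : DVal L} {v : DVal M}

theorem Rl.reg (hr : Rl g S y w v) {f : L} (hf : f ∈ S) : w.Reg f :=
  reg_of_over hr.ov ⟨f, hf⟩

theorem Rl.unit (hr : Rl g S y w v) {b : S} (hb : y b ≠ 0) : (b : L) ≠ 0 ∧ w.ord (b : L) = 0 := by
  have h1 : ¬ w.Pos (b : L) := fun h => hb ((hr.ov.2 b).1 h)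
  have h0 : (b : L) ≠ 0 := fun h => h1 (Or.inl h)
  have h2 := (hr.reg b.2).resolve_left h0
  refine ⟨h0, ?_⟩
  by_contra h3
  exact h1 (Or.inr (by omega))

theorem Rl.ge_J (hr : Rl g S y w v) {N : ℕ} {z : L} (hz : z ∈ J g S N) : AtLeast w N z := by
  induction hz using Submodule.span_induction with
  | mem x hx =>
    obtain ⟨m, hm, rfl⟩ := hx
    right
    rw [yl, hr.res _ (ym_ne _), ord_ym]
    exact Inter.ge hr.inter N m hm
  | zero => exact Or.inl rfl
  | add a c _ _ ha hc => exact ha.add hc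
  | smul s a _ ha =>
    rw [Algebra.smul_def]
    exact ha.mul (hr.reg s.2)

theorem Rl.appr (hr : Rl g S y w v) {s : L} {N : ℕ} {P : (Fin n → ℤ) →₀ ℂ}
    (h : Appr g S y s N P) : AtLeast w N (s - lin M L P) := by
  obtain ⟨-, b, hb, h1⟩ := h
  obtain ⟨hb0, hb1⟩ := hr.unit hb
  have h2 := hr.ge_J h1
  by_cases h0 : s - lin M L P = 0
  · exact Or.inl h0
  · right
    have h3 := h2.resolve_left (mul_ne_zero hb0 h0)
    rw [w.map_mul _ _ hb0 h0, hb1, zero_add] at h3
    exact h3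

theorem Rl.compare (hr : Rl g S y w v) {s : L} {N N' : ℕ} (hN : N ≤ N')
    {P P' : (Fin n → ℤ) →₀ ℂ} (h : Appr g S y s N P) (h2 : Appr g S y s N' P')
    {m : Fin n → ℤ} (hm : pr m (tv v) < N) : P m = P' m := by
  by_contra hne
  have h3 := hr.appr h
  have h4 : AtLeast w N (s - lin M L P') := (hr.appr h2).imp id fun h => by
    have : (N : ℤ) ≤ N' := by exact_mod_cast hN
    omega
  have h5 : lin M L (P' - P) = (s - lin M L P) + -(s - lin M L P') := by
    have h6 : lin M L P' = lin M L (P' - P) + lin M L P := by rw [← lin_add, sub_add_cancel]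
    rw [h6]
    ring
  have h6 : AtLeast w N (lin M L (P' - P)) := by
    rw [h5]
    exact h3.add h4.neg
  have hP0 : P' - P ≠ 0 := by
    intro h0
    apply hne
    have := DFunLike.congr_fun h0 m
    rw [Finsupp.sub_apply, Finsupp.zero_apply, sub_eq_zero] at this
    exact this.symm
  obtain ⟨h7, -, h8⟩ := lin_ord hr.mon hr.res hP0
  have h9 := h6.resolve_left h7
  have h10 := h8 m (by
    rw [Finsupp.mem_support_iff, Finsupp.sub_apply]
    exact sub_ne_zero.2 fun h => hne h.symm)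
  omega

theorem Rl.val (hr : Rl g S y w v) {s : L} (hs : s ≠ 0) {N : ℕ} {P : (Fin n → ℤ) →₀ ℂ}
    (h : Appr g S y s N P) (hN : w.ord s < N) :
    P ≠ 0 ∧ w.ord (lin M L P) = w.ord s := by
  have h1 := hr.appr h
  have h2 : AtLeast w (w.ord s + 1) (-(s - lin M L P)) := h1.neg.imp id fun h => by omega
  obtain ⟨h3, h4⟩ := ord_add_eq hs h2
  have h5 : s + -(s - lin M L P) = lin M L P := by ring
  rw [h5] at h3 h4
  refine ⟨?_, h4⟩
  rintro rfl
  exact h3 lin_zero

/-- **The Newton diagram of a function in étale toric coordinates.** -/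
theorem taylor (hP : h'.im y = g.P) {s : L} (hs : s ∈ S) (hs0 : s ≠ 0) :
    ∃ Sf ⊆ Cn g.E, ∀ (w : DVal L) (v : DVal M), Rl g S y w v →
      (∃ m ∈ Sf, w.ord s = pr m (tv v)) ∧ ∀ m ∈ Sf, w.ord s ≤ pr m (tv v) := by
  refine ⟨{m | ∃ (N : ℕ) (P : (Fin n → ℤ) →₀ ℂ), Appr g S y s N P ∧ P m ≠ 0 ∧
    ∃ (w : DVal L) (v : DVal M), Rl g S y w v ∧ pr m (tv v) < N}, ?_, ?_⟩
  · rintro m ⟨N, P, hA, hm, -⟩
    exact hA.1 m (Finsupp.mem_support_iff.2 hm)
  · intro w v hr
    have hV : 0 ≤ w.ord s := (hr.reg hs).resolve_left hs0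
    refine ⟨?_, ?_⟩
    · obtain ⟨P, hA⟩ := exists_appr hP hs ((w.ord s).toNat + 1)
      have hN : w.ord s < (((w.ord s).toNat + 1 : ℕ) : ℤ) := by push_cast; omega
      obtain ⟨h1, h2⟩ := hr.val hs0 hA hN
      obtain ⟨-, ⟨m, hm, h3⟩, -⟩ := lin_ord hr.mon hr.res h1
      rw [h2] at h3
      exact ⟨m, ⟨_, P, hA, Finsupp.mem_support_iff.1 hm, w, v, hr, by rw [← h3]; exact hN⟩, h3⟩
    · rintro m ⟨N1, P1, hA1, hm1, w1, v1, hr1, hlt⟩
      obtain ⟨P2, hA2⟩ := exists_appr hP hs (max N1 ((w.ord s).toNat + 1))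
      have h1 := hr1.compare (le_max_left _ _) hA1 hA2 hlt
      have hN : w.ord s < ((max N1 ((w.ord s).toNat + 1) : ℕ) : ℤ) := by
        push_cast
        have := le_max_right (N1 : ℤ) (((w.ord s).toNat : ℤ) + 1)
        omega
      obtain ⟨h2, h3⟩ := hr.val hs0 hA2 hN
      obtain ⟨-, -, h4⟩ := lin_ord hr.mon hr.res h2
      rw [← h3]
      exact h4 m (Finsupp.mem_support_iff.2 (by rw [← h1]; exact hm1))

end real

end Pool.Agent.Run7.h271.ML
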